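import Pool.Agent.AET.LightOne
import Pool.Agent.AEB.FinalD
import Pool.Agent.AEJ.Defs

/-!
# The exit: many good out-neighbours of a good host survive in the remaining set
-/

set_option autoImplicit false

namespace AEY

open Finset AE15 AED AELT AEF AEB
open scoped Classical

/-- good out-neighbours of a good host, in the remaining set -/
theorem final_exit {V : Type*} {R : V → V → Prop} (hT : AE32.Tour R) {κ η c δ ε κe ηe A₁ : ℝ} (hκ : 0 < κ)
    (hκ1 : κ ≤ 1) (hη : 0 < η) (hη1 : η ≤ 1 / 2) {X : Finset V} {x : V} (hX : 20 ≤ η * X.card) (hG : Good R κ η X x)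
    (hδ : 0 ≤ δ) (hε : 0 < ε) (hc : 0 < c) (hc1 : c ≤ 1) (h1 : 2 * (δ + ε) ≤ c * κGO κ η)
    (h2 : 2 * (δ + ε) ≤ c * kGO κ η) (h3 : κe ≤ c * κGO κ η / 2) (hκe : 0 ≤ κe) (h4 : 4 * η * A₁ ≤ ηe) :
    ∃ 𝓕 : Finset (Finset V), 𝓕.card ≤ 8 * X.card ^ 2 ∧
      ∀ A Q P : Finset V, A ⊆ X → (X.card : ℝ) ≤ 2 * A.card → Q ⊆ A → Rep A 𝓕 ε Q →
        c * A.card ≤ Q.card → P ⊆ X → Q ⊆ P → (((X \ A) \ P).card : ℝ) ≤ δ * X.card → (X.card : ℝ) ≤ A₁ * P.card →
        c * kGO κ η / 2 * P.card ≤ ((P.filter (fun v => Good R κe ηe P v ∧ R x v)).card : ℝ) := by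
  obtain ⟨k, hk⟩ : ∃ k, k = kGO κ η := ⟨_, rfl⟩
  obtain ⟨κ₁, hκ₁⟩ : ∃ κ₁, κ₁ = κGO κ η := ⟨_, rfl⟩
  have hk0 : 0 < k := by rw [hk]; exact kGO_pos hκ hη
  have hκ₁0 : 0 < κ₁ := by rw [hκ₁]; exact κGO_pos hκ hη
  rw [← hk] at h2
  rw [← hκ₁] at h1 h3
  have hn0 : (0 : ℝ) < X.card := by
    have h5 : (0 : ℝ) ≤ X.card := Nat.cast_nonneg _
    rcases h5.eq_or_lt with h6 | h6
    · rw [← h6] at hX
      norm_num at hX
    · exact h6
  have hn1 : 1 ≤ X.card := by exact_mod_cast hn0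
  obtain ⟨W, hW⟩ : ∃ W, W = (nO R X x).filter (fun w => Good R κ₁ (4 * η) X w) := ⟨_, rfl⟩
  have hWX : W ⊆ X := by
    rw [hW]
    exact (filter_subset _ _).trans nO_sub
  have hWc : k * X.card ≤ (W.card : ℝ) := by
    rw [hW, hk, hκ₁]
    exact good_out hT hκ hκ1 hη hη1 hX hG
  obtain ⟨FF, hF1, hF2, hF3⟩ := exists_family R κ₁ (4 * η) X
  refine ⟨insert W FF, ?_, ?_⟩
  · have h8 := card_insert_le W FF
    nlinarith
  intro A Q P hA hXA hQ hRep hcQ hP hQP hdel hPn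
  have hA0 : A.Nonempty := by
    rw [← card_pos]
    have : (0 : ℝ) < A.card := by linarith
    exact_mod_cast this
  have hPX : (P.card : ℝ) ≤ X.card := by exact_mod_cast card_le_card hP
  have key : ∀ F ∈ insert W FF, F ⊆ X → ∀ t : ℝ, 2 * (δ + ε) ≤ c * t →
      c * F.card - c * t / 2 * X.card ≤ ((F ∩ P).card : ℝ) := by
    intro F hF hFX t ht
    have h7 := meet_bound hε hc hA hA0 hQ hRep hcQ hQP hdel hF hFX
    have h8 : (δ + ε) * X.card ≤ c * t / 2 * X.card := mul_le_mul_of_nonneg_right (by linarith) hn0.le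
    linarith
  -- goodness in `P`
  have hgood : ∀ w ∈ X, Good R κ₁ (4 * η) X w → Good R κe ηe P w := by
    apply hF3 P hP κe ηe
    · intro F hF hFc
      have h7 := key F (mem_insert_of_mem hF) (hF2 F hF) κ₁ h1
      have h8 : c * (κ₁ * X.card) ≤ c * F.card := mul_le_mul_of_nonneg_left hFc hc.le
      have h10 : κe * P.card ≤ κe * X.card := mul_le_mul_of_nonneg_left hPX hκe
      have h11 : κe * X.card ≤ c * κ₁ / 2 * X.card := mul_le_mul_of_nonneg_right h3 hn0.le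
      linarith
    · intro F hF hFc
      have h7 : ((F ∩ P).card : ℝ) ≤ F.card := by exact_mod_cast card_le_card inter_subset_left
      have h8 : 4 * η * (X.card : ℝ) ≤ 4 * η * (A₁ * P.card) := mul_le_mul_of_nonneg_left hPn (by positivity)
      have h9 : 4 * η * A₁ * P.card ≤ ηe * P.card := mul_le_mul_of_nonneg_right h4 (Nat.cast_nonneg _)
      linarith
  have h7 := key W (mem_insert_self _ _) hWX k h2
  have h8 : ((W ∩ P).card : ℝ) ≤ (P.filter (fun v => Good R κe ηe P v ∧ R x v)).card := by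
    have : W ∩ P ⊆ P.filter (fun v => Good R κe ηe P v ∧ R x v) := by
      intro w hw
      rw [mem_inter, hW, mem_filter, mem_nO] at hw
      exact mem_filter.2 ⟨hw.2, hgood w hw.1.1.1 hw.1.2, hw.1.1.2⟩
    exact_mod_cast card_le_card this
  have h9 : c * (k * X.card) ≤ c * W.card := mul_le_mul_of_nonneg_left hWc hc.le
  have h11 : c * k / 2 * P.card ≤ c * k / 2 * X.card := mul_le_mul_of_nonneg_left hPX (by positivity)
  rw [← hk]
  linarith

/-- the exit tree is embedded in the remaining set -/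
theorem exit_in {θ κe εe βe ηe se C : ℝ} {V : Type} {R : V → V → Prop} (hT : AE32.Tour R) {P : Finset V} {x : V}
    {D : Fd} (h1 : (dcl D : ℝ) + AEB.blk D ≤ (1 - θ) * (D.size + 1 + C)) (hco : AEJ.Coarse κe εe βe C D) (hC : 0 ≤ C)
    (hP : (D.size + 1 : ℝ) + C ≤ P.card) (hθ : 0 < θ) (hθ1 : θ ≤ 1) (hse : 0 < se) (h2 : ηe ≤ θ / 4) (h3 : εe ≤ θ / 4)
    (h4 : 2 ≤ θ * P.card) (h5 : εe ≤ se / 16) (h6 : (AEB.blk D + 1 : ℝ) ≤ se / 16 * P.card) (h7 : 8 ≤ se * P.card)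
    (h8 : βe ≤ se / 2) (hW : se * P.card ≤ ((P.filter (fun v => Good R κe ηe P v ∧ R x v)).card : ℝ)) :
    In R D (R x) P := by
  obtain ⟨W, hWd⟩ : ∃ W, W = P.filter (fun v => Good R κe ηe P v ∧ R x v) := ⟨_, rfl⟩
  rw [← hWd] at hW
  obtain ⟨q, hq⟩ : ∃ q : ℝ, q = (P.card : ℝ) := ⟨_, rfl⟩
  rw [← hq] at hP h4 h6 h7 hW
  have hq0 : 0 ≤ q := by rw [hq]; exact Nat.cast_nonneg _
  refine hco hT P (R x) (by rw [← hq]; exact hP) ?_
  obtain ⟨j, hj⟩ : ∃ j : ℕ, j = ⌈se / 8 * q⌉₊ := ⟨_, rfl⟩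
  have hj1 : se / 8 * q ≤ j := by rw [hj]; exact Nat.le_ceil _
  have hj2 : (j : ℝ) < se / 8 * q + 1 := by rw [hj]; exact Nat.ceil_lt_add_one (by positivity)
  have hlow := card_low_nI hT W j
  have hsub : W \ W.filter (fun u => (nI R W u).card < j) ⊆ AEJ.Adm R κe εe D P (R x) := by
    intro w hw
    rw [mem_sdiff, mem_filter, not_and, not_lt] at hw
    have hwj := hw.2 hw.1
    have hw1 := hw.1
    rw [hWd, mem_filter] at hw1
    unfold AEJ.Adm
    rw [mem_filter]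
    refine ⟨hw1.1, hw1.2.2, ?_, ?_⟩
    · intro Q hQ hnQ hcQ
      have g1 := hw1.2.1 Q hQ hnQ hcQ
      rw [← hq] at g1 ⊢
      have g2 : (P.card : ℝ) = (P \ Q).card + Q.card := by exact_mod_cast (card_sdiff_add_card_eq_card hQ).symm
      rw [← hq] at g2
      have g3 : ηe * q ≤ θ / 4 * q := mul_le_mul_of_nonneg_right h2 hq0
      have g4 : εe * q ≤ θ / 4 * q := mul_le_mul_of_nonneg_right h3 hq0
      have g5 : (0 : ℝ) ≤ AEB.blk D := Nat.cast_nonneg _
      have g6 : (1 - θ) * ((D.size : ℝ) + 1 + C) ≤ (1 - θ) * q := mul_le_mul_of_nonneg_left (by linarith) (by linarith)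
      linarith
    · intro Q hQ hnQ _
      have g1 : nI R W w ⊆ Q := by
        intro u hu
        rw [mem_nI] at hu
        have hu1 := hu.1
        rw [hWd, mem_filter] at hu1
        exact hnQ (mem_nO.2 ⟨hu1.1, hu.2⟩)
      have g2 : (j : ℝ) ≤ Q.card := by exact_mod_cast hwj.trans (card_le_card g1)
      rw [← hq]
      have g3 : εe * q ≤ se / 16 * q := mul_le_mul_of_nonneg_right h5 hq0
      linarith
  have g1 : W.card ≤ (W \ W.filter (fun u => (nI R W u).card < j)).card + 2 * j := by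
    have g2 := card_sdiff_add_card_eq_card (filter_subset (fun u => (nI R W u).card < j) W)
    omega
  have g2 : (W.card : ℝ) ≤ (W \ W.filter (fun u => (nI R W u).card < j)).card + 2 * j := by exact_mod_cast g1
  have g3 : ((W \ W.filter (fun u => (nI R W u).card < j)).card : ℝ) ≤ (AEJ.Adm R κe εe D P (R x)).card := by
    exact_mod_cast card_le_card hsub
  rw [← hq]
  have g4 : βe * q ≤ se / 2 * q := mul_le_mul_of_nonneg_right h8 hq0
  linarith

end AEY
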