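import Pool.Agent.AEY.CfgY
import Pool.Agent.AEY.FinX
import Pool.Agent.AET.StepL

/-!
# Main lines with an exit: the first step from a poor class

The constants `κp`, `sp` of the given class may be much smaller than the constants of the class of the final item, which are
those of `KB` for a number `D₀` depending on the degree and on the window of the exits only. The exits are small.
-/

set_option autoImplicit false

namespace AEY

open Finset AE15 AED AEB AEG AET AELT AEF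
open scoped Classical

theorem good_mono {V : Type*} {R : V → V → Prop} {κ η κ' η' : ℝ} {X : Finset V} {v : V} (h : Good R κ η X v)
    (hκ : κ' ≤ κ) (hη : η ≤ η') : Good R κ' η' X v :=
  AEB.Good.gdU h (Subset.refl _) (mul_le_mul_of_nonneg_right hκ (Nat.cast_nonneg _)) hη

theorem weak_mono {V : Type*} {R : V → V → Prop} {Gd Gd' : V → Prop} (hG : ∀ v, Gd v → Gd' v) {c0 : ℕ} {X : Finset V}
    {v : V} (h : Weak R Gd c0 X v) : Weak R Gd' c0 X v := ⟨hG v h.1, h.2⟩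

theorem strong_mono {V : Type*} {R : V → V → Prop} {Gd Gd' : V → Prop} (hG : ∀ v, Gd v → Gd' v) {c0 c : ℕ}
    {X : Finset V} {v : V} (h : Strong R Gd c0 c X v) : Strong R Gd' c0 c X v := by
  refine ⟨weak_mono hG h.1, h.2.trans (card_le_card ?_)⟩
  refine nI_mono ?_
  intro x hx
  rw [mem_filter] at hx ⊢
  exact ⟨hx.1, hG x hx.2⟩

theorem clD_mono {V : Type*} {Gd Gd' : V → Prop} (hG : ∀ v, Gd v → Gd' v) {s s' : ℝ} (hs : s' ≤ s) {X : Finset V}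
    {N : V → Prop} (h : ClD Gd s X N) : ClD Gd' s' X N := by
  unfold ClD at h ⊢
  refine (mul_le_mul_of_nonneg_right hs (Nat.cast_nonneg _)).trans (h.trans ?_)
  have h1 : X.filter (fun v => Gd v ∧ N v) ⊆ X.filter (fun v => Gd' v ∧ N v) := by
    intro x hx
    rw [mem_filter] at hx ⊢
    exact ⟨hx.1, hG x hx.2.1, hx.2.2⟩
  exact_mod_cast card_le_card h1

theorem clB_mono {V : Type*} {R : V → V → Prop} {Gd Gd' : V → Prop} (hG : ∀ v, Gd v → Gd' v) {s s' : ℝ} (hs : s' ≤ s)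
    {p : NP} {m : ℕ} {X : Finset V} {N : V → Prop} (h : ClB R Gd s p m X N) : ClB R Gd' s' p m X N := by
  obtain ⟨h1, U, Q, h2, h3, h4, h5⟩ := h
  refine ⟨clD_mono hG hs h1, U, Q, h2, h3, fun u hu => ?_, fun u hu => ?_⟩
  · rcases h4 u hu with h | h | h | ⟨v, a1, a2, a3, a4⟩
    · exact Or.inl h
    · exact Or.inr (Or.inl h)
    · exact Or.inr (Or.inr (Or.inl h))
    · exact Or.inr (Or.inr (Or.inr ⟨v, a1, a2, a3, weak_mono hG a4⟩))
  · rcases h5 u hu with h | h | h | h | ⟨v, a1, a2, a3, a4⟩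
    · exact Or.inl h
    · exact Or.inr (Or.inl h)
    · exact Or.inr (Or.inr (Or.inl h))
    · exact Or.inr (Or.inr (Or.inr (Or.inl h)))
    · exact Or.inr (Or.inr (Or.inr (Or.inr ⟨v, a1, a2, a3, strong_mono hG a4⟩)))

theorem cl_mono {V : Type*} {R : V → V → Prop} {Gd Gd' : V → Prop} (hG : ∀ v, Gd v → Gd' v) {s s' : ℝ} (hs : s' ≤ s)
    {p : NP} {F : Fd} {X : Finset V} {N : V → Prop} (h : Cl R Gd s p F X N) : Cl R Gd' s' p F X N :=
  ⟨clD_mono hG hs h.1, fun hN => clB_mono hG hs (h.2 hN)⟩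

theorem inX_mono {l K : ℕ} {Q Q' : Fd → Prop} (hQ : ∀ c, Q c → Q' c) (F : Fd) : ∀ {S j : ℕ}, InX l K Q S j F →
    InX l K Q' S j F := by
  induction F with
  | nil => intro S j _; trivial
  | node d c s ihc _ =>
    intro S j h
    refine ⟨?_, h.2.1, h.2.2⟩
    have h1 := h.1
    cases d with
    | true =>
      simp only [if_true] at h1 ⊢
      exact h1.imp (fun h => ⟨hQ c h.1, h.2⟩) (fun h => ihc h)
    | false =>
      simp only [Bool.false_eq_true, if_false] at h1 ⊢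
      exact ⟨h1.1, ihc h1.2⟩

theorem FX.monoQ {b l K j : ℕ} {Q Q' : Fd → Prop} (hQ : ∀ c, Q c → Q' c) {F : Fd} (h : FX b l K Q j F) :
    FX b l K Q' j F := ⟨h.1, h.2.1, inX_mono hQ F h.2.2⟩

private theorem sum_le_isz {V : Type*} (η γ : ℝ) (hη : 0 < 1 - 8 * η) (hγ : 0 < γ) {B : ℝ} (m₁ : ℕ) (L : List (V × Fd))
    (hB : ∀ q ∈ L, (blk q.2 : ℝ) + 1 ≤ B) :
    (L.map (fun q => ((q.2.size : ℝ) + 1) / (1 - 8 * η) + ((blk q.2 : ℝ) + 1) / γ + m₁)).sum ≤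
      (AEB.isz L : ℝ) / (1 - 8 * η) + L.length * (B / γ) + L.length * (m₁ : ℝ) := by
  induction L with
  | nil => simp [AEB.isz]
  | cons q L ih =>
    have h1 := ih fun q hq => hB q (List.mem_cons_of_mem _ hq)
    have h2 : ((blk q.2 : ℝ) + 1) / γ ≤ B / γ := div_le_div_of_nonneg_right (hB q List.mem_cons_self) hγ.le
    have h3 : ((AEB.isz (q :: L) : ℕ) : ℝ) = (q.2.size + 1) + AEB.isz L := by
      rw [AEB.isz_cons]
      push_cast
      ring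
    have h4 : ((q.2.size : ℝ) + 1 + AEB.isz L) / (1 - 8 * η) = ((q.2.size : ℝ) + 1) / (1 - 8 * η) +
        (AEB.isz L : ℝ) / (1 - 8 * η) := add_div _ _ _
    rw [List.map_cons, List.sum_cons, h3, h4]
    simp only [List.length_cons]
    push_cast
    linarith only [h1, h2]

/-- **The first step from a poor class**, for a fixed `C` -/
theorem stepP (p : NP) (hp : p.OK) (hab : ab p.b p.l ≤ p.a) (hB2 : (2 * p.b) ^ p.A0 ≤ p.B) {D₀ : ℕ} (hD₀ : p.A ≤ D₀)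
    {ω c η η₁ κ₀ κ₁ κ γ₀ τ s σ₂ μ₂ : ℝ} (P : KB D₀ ω c η η₁ κ₀ κ₁ κ γ₀ τ s σ₂ μ₂) {κp sp : ℝ} (hκp : 0 < κp)
    (hκpκ : κp ≤ κ) (hsp : 0 < sp) {γ ε₀ μ₀ : ℝ} {m₁ : ℕ} (hγ : 0 < γ)
    (hε₀ : 0 < ε₀) (hμ₀ : 0 < μ₀) (hL : LightH p.b κp η γ ε₀ μ₀ m₁) : ∃ K₁ : ℕ, ∀ K : ℕ, K₁ ≤ K → ∃ n₀ : ℕ,
    ∀ {W₀ : Fd → Prop} {V : Type} {R : V → V → Prop}, AE32.Tour R → ∀ C : ℝ, 0 ≤ C → ∀ F : Fd,
      FX p.b p.l K (fun c => W₀ c ∧ p.A * (c.size + 1) < F.size + 1) 0 F →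
      (∀ F' : Fd, FX p.b p.l K W₀ 0 F' → F'.size < F.size → EE R κ η s p 1 C F') →
      ∀ (X : Finset V) (N : V → Prop), 1 * ((F.size : ℝ) + 1) + C ≤ X.card → n₀ ≤ X.card →
        Cl R (Good R κp η X) sp p F X N → In R F N X := by
  have hnum := P.num
  obtain ⟨hω0, hω1, hc0, hc1, hη0, hη1, hη₁0, hη₁1, hκ₀0, hκ₁0, hκ₁1, hκ0, hκ1, hs0, hγ₀0, hτ0, hσ₂0, -, hκ₁η, hκs⟩ :=
    hnum
  obtain ⟨n₁, hcfg⟩ := cfgY p hp hab hB2 hγ₀0 hsp
  have P' := P
  obtain ⟨hD, hω, hc, hη, hη₁, hκ₀, hκ₁, hκ, hγ₀, hτ, hs, hσ₂, hμ₂⟩ := P'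
  -- the constants
  obtain ⟨μ, hμ⟩ : ∃ μ : ℝ, μ = min μ₀ (ω / 16) := ⟨_, rfl⟩
  have hμ0 : 0 < μ := by rw [hμ]; exact lt_min hμ₀ (by positivity)
  have hμ1 : μ ≤ μ₀ := by rw [hμ]; exact min_le_left _ _
  have hμω : μ ≤ ω / 16 := by rw [hμ]; exact min_le_right _ _
  obtain ⟨σ, hσ⟩ : ∃ σ : ℝ, σ = min (min (γ₀ / 16) κ₁) (μ / (6 * (1 + p.c0 + p.c))) :=
    ⟨_, rfl⟩
  have hpc : (0 : ℝ) < 6 * (1 + p.c0 + p.c) := by positivity
  have hσ0 : 0 < σ := by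
    rw [hσ]
    exact lt_min (lt_min (by positivity) hκ₁0) (by positivity)
  have hσ1 : σ ≤ γ₀ / 16 := by
    rw [hσ]
    exact (min_le_left _ _).trans (min_le_left _ _)
  have hσ2 : σ ≤ κ₁ := by
    rw [hσ]
    exact (min_le_left _ _).trans (min_le_right _ _)
  have hσ3 : 6 * (1 + p.c0 + p.c) * σ ≤ μ := by
    have h1 : σ ≤ μ / (6 * (1 + p.c0 + p.c)) := by rw [hσ]; exact min_le_right _ _
    rw [le_div_iff₀ hpc] at h1
    linarith only [h1]
  obtain ⟨ε, hε⟩ : ∃ ε : ℝ, ε = min (min ε₀ (c * σ / 4)) (μ / 2) := ⟨_, rfl⟩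
  have hcσ : 0 < c * σ := by positivity
  have hε0 : 0 < ε := by rw [hε]; exact lt_min (lt_min hε₀ (by positivity)) (by positivity)
  have hε1 : ε ≤ ε₀ := by rw [hε]; exact (min_le_left _ _).trans (min_le_left _ _)
  have hε2 : ε ≤ c * σ / 4 := by rw [hε]; exact (min_le_left _ _).trans (min_le_right _ _)
  have hε3 : ε ≤ μ / 2 := by rw [hε]; exact min_le_right _ _
  obtain ⟨m, hm⟩ : ∃ m : ℕ, m = p.b * (p.e + 1) := ⟨_, rfl⟩
  obtain ⟨n₂, hhost⟩ := host_itemsG (c := c) hε0 (by linarith only [hω1, hη0, hη1, hμω, hε3]) hc0 m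
  obtain ⟨K₁, hK⟩ : ∃ K : ℕ, K = ⌈4 * m / (γ * ω)⌉₊ + 1 := ⟨_, rfl⟩
  refine ⟨K₁, ?_⟩
  intro K hKK
  have hKKr : (K₁ : ℝ) ≤ K := by exact_mod_cast hKK
  have hKr : (K₁ : ℝ) = ⌈4 * (m : ℝ) / (γ * ω)⌉₊ + 1 := by rw [hK]; push_cast; ring
  have hK0 : 0 < K := by omega
  have hK0' : (0 : ℝ) < K := by exact_mod_cast hK0
  have hKm : 4 * (m : ℝ) ≤ γ * ω * K := by
    have h1 : 4 * (m : ℝ) / (γ * ω) ≤ ⌈4 * (m : ℝ) / (γ * ω)⌉₊ := Nat.le_ceil _
    have h2 : 4 * (m : ℝ) / (γ * ω) ≤ K := by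
      refine le_trans ?_ hKKr
      rw [hKr]
      linarith only [hη0, hη1, h1]
    rw [div_le_iff₀ (by positivity)] at h2
    linarith only [h2]
  obtain ⟨A₀, hA₀⟩ : ∃ A₀ : ℕ, A₀ = max p.A (K * p.a) := ⟨_, rfl⟩
  obtain ⟨n₃, h₃⟩ := exists_big [(1, κ₀), ((2 : ℝ) ^ A₀, sp), ((m : ℝ) * m₁, ω / 16), (2 * n₂, 1), (m₁, 1), (40, 1), (m, 1),
      (8 * (p.c0 + p.c1 + p.u0 + p.g + 1 : ℝ), c * σ), (p.e, ε)] (by
    intro q hq
    simp only [List.mem_cons, List.not_mem_nil, or_false] at hq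
    rcases hq with rfl | rfl | rfl | rfl | rfl | rfl | rfl | rfl | rfl
    · exact hκ₀0
    · exact hsp
    · show 0 < ω / 16
      positivity
    · exact one_pos
    · exact one_pos
    · exact one_pos
    · exact one_pos
    · exact hcσ
    · exact hε0)
  refine ⟨max n₁ n₃, ?_⟩
  intro W₀ V R hT C hC F hF ih X N hn hnX hcl
  have hn1 : n₁ ≤ X.card := (le_max_left _ _).trans hnX
  have hn3 : n₃ ≤ X.card := (le_max_right _ _).trans hnX
  have hbig := h₃ X.card hn3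
  have b1 : (1 : ℝ) ≤ κ₀ * X.card := hbig (1, κ₀) (by simp)
  have b2 : (2 : ℝ) ^ A₀ ≤ sp * X.card := hbig ((2 : ℝ) ^ A₀, sp) (by simp)
  have b3 : (m : ℝ) * m₁ ≤ ω / 16 * X.card := hbig ((m : ℝ) * m₁, ω / 16) (by simp)
  have b4 : 2 * (n₂ : ℝ) ≤ 1 * X.card := hbig (2 * (n₂ : ℝ), 1) (by simp)
  have b5 : (m₁ : ℝ) ≤ 1 * X.card := hbig ((m₁ : ℝ), 1) (by simp)
  have b6 : (40 : ℝ) ≤ 1 * X.card := hbig (40, 1) (by simp)
  have b7 : (m : ℝ) ≤ 1 * X.card := hbig ((m : ℝ), 1) (by simp)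
  have b8 : 8 * (p.c0 + p.c1 + p.u0 + p.g + 1 : ℝ) ≤ c * σ * X.card :=
    hbig (8 * (p.c0 + p.c1 + p.u0 + p.g + 1 : ℝ), c * σ) (by simp)
  have b9 : (p.e : ℝ) ≤ ε * X.card := hbig ((p.e : ℝ), ε) (by simp)
  rw [one_mul] at b4 b5 b6 b7
  by_cases hsz : F.size < A₀
  · -- small trees
    obtain ⟨w, hw1, hw2, hw3⟩ := exists_tl hT (F.size + 1) (X.filter (fun v => Good R κp η X v ∧ N v)) (by
      have h1 := b2.trans hcl.1
      have h2 : 2 ^ A₀ ≤ (X.filter (fun v => Good R κp η X v ∧ N v)).card := by exact_mod_cast h1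
      exact (Nat.pow_le_pow_right (by norm_num) (by omega)).trans h2)
    obtain ⟨x, A, hxA, hA, hE⟩ := trans_emb hT F w hw3 hw1
    have hmem : ∀ v ∈ insert x A, v ∈ X ∧ N v := by
      intro v hv
      rw [hA, List.mem_toFinset] at hv
      have := mem_filter.1 (hw2 v hv)
      exact ⟨this.1, this.2.2⟩
    exact ⟨x, (hmem x (mem_insert_self _ _)).1, A, fun v hv => (hmem v (mem_insert_of_mem hv)).1, hxA,
      (hmem x (mem_insert_self _ _)).2, hE⟩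
  push Not at hsz
  have hpA : p.A ≤ F.size := (le_max_left _ _).trans (hA₀ ▸ hsz)
  have hKa : K * p.a ≤ F.size + 1 := ((le_max_right p.A (K * p.a)).trans (hA₀ ▸ hsz)).trans (Nat.le_succ _)
  have hX : X.Nonempty := by
    rw [← card_pos]
    have : (0 : ℝ) < X.card := by linarith only [hη0, hη1, b6]
    exact_mod_cast this
  obtain ⟨G, hG, hGg, hGc, hGo⟩ := exists_G P hT X b1
  have hcη : c * η ≤ 1 * η := mul_le_mul_of_nonneg_right (by linarith only [hc1, hη0, hη1]) hη0.le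
  have hSt : St R p (Good R κp η X) γ₀ sp X G N := by
    refine ⟨hT, hG, fun g hg => ?_, hGc, hGo, hcl.1⟩
    exact good_mono (hGg g hg) (by linarith only [hκp, hκpκ, hκ1]) (by linarith only [hκp, hκpκ, hη₁1, hκ1, hκ₁η, hcη])
  obtain ⟨y₀, x, Z, L, D, ⟨hH, hq⟩, hDs, hsize, hcase⟩ := hcfg (Y := X) (Subset.refl _) hn1 hSt hKa hF le_rfl hpA hcl
  obtain ⟨hy₀, hx, hNy, hyZ, hZX, hPE, hZe, hxZ, hxD, hGd⟩ := hH
  have hins : insert y₀ Z ⊆ X := insert_subset hy₀ hZX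
  have hZa1 : (insert y₀ Z \ Z).card ≤ 1 := by
    refine (card_le_card (t := {y₀}) ?_).trans (card_singleton _).le
    intro v hv
    rw [mem_sdiff, mem_insert] at hv
    rw [mem_singleton]
    exact hv.1.resolve_right hv.2
  -- the final item
  obtain ⟨𝓕x, H, h𝓕x, hHX, hHE, hHc, hfin⟩ : ∃ (𝓕x : Finset (Finset V)) (H : Finset V), 𝓕x.card ≤ 8 * X.card ^ 2 ∧
      H ⊆ X ∧ Disjoint H (insert y₀ Z) ∧ (H.card : ℝ) ≤ 3 * (1 + p.c0 + p.c) * σ * X.card ∧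
      ∀ A Q P₀ : Finset V, A ⊆ X → (X.card : ℝ) ≤ 2 * A.card → Q ⊆ A → Rep A 𝓕x ε Q → c * A.card ≤ Q.card → P₀ ⊆ X →
        Disjoint P₀ (insert y₀ Z) → Q ⊆ P₀ → H ⊆ P₀ → (((X \ A) \ P₀).card : ℝ) ≤ ε * X.card →
        X.card + (D.size + 1) ≤ P₀.card + (F.size + (insert y₀ Z \ Z).card) → In R D (R x) P₀ := by
    rcases hcase with ⟨hDF, hcov⟩ | hDE
    · obtain ⟨𝓕x, H, h𝓕x, hHX, hHE, hHc, hfin⟩ := final_cl hT hp (κ := κ) (η := η) (s := s) (σ := σ) (δ := ε) (ε := ε)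
        (c := c) (γ := γ₀ / 16) (E := insert y₀ Z) (x := x) (D := D) hG hGg hcov (by
          rw [mem_insert]
          exact hxZ) ((card_insert_le _ _).trans hZe) hX hκ0 hη0 hκ₁0 hη₁0 hσ0 hε0.le hε0 hc0 (by linarith only [hκp, hκpκ, hc1, hη1, hη₁1, hκ1, hκ₁η, hcη]) hσ1
        (by linarith only [hε2]) hσ2 (by linarith only [hκp, hκpκ, hκ]) (by linarith only [hκp, hκpκ, hη₁1, hκ1, hκ₁η]) hs0 (by rw [hs, hγ₀]; linarith only []) b8
      refine ⟨𝓕x, H, h𝓕x, hHX, hHE, hHc, ?_⟩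
      intro A Q P₀ a1 a2 a3 a4 a5 a6 a7 a8 a9 a10 a11
      have hcls := hfin A Q P₀ a1 a2 a3 a4 a5 a6 a7 a8 a9 a10
      exact ih D (hDF.monoQ fun c hc => hc.1) hDs P₀ (R x) (by
        have h2 : X.card + (D.size + 1) ≤ P₀.card + (F.size + 1) := by omega
        have h3 : (X.card : ℝ) + (D.size + 1) ≤ P₀.card + (F.size + 1) := by exact_mod_cast h2
        linarith only [hn, h3]) hcls
    · exfalso
      have h1 := hDE.2.2.1.2
      omega
  obtain ⟨Lh, hLh⟩ : ∃ Lh, L.Perm ((x, D) :: Lh) := ⟨L.erase (x, D), List.perm_cons_erase hxD⟩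
  have hLl : L.length = Lh.length + 1 := by rw [hLh.length_eq, List.length_cons]
  have hlen : Lh.length ≤ m := by
    have h1 := hPE.length_le hF.1 hF.2.1
    have h2 : p.b * (Z.card + 1) ≤ p.b * (p.e + 1) := Nat.mul_le_mul_left _ (by omega)
    omega
  have hmemL : ∀ q ∈ Lh, q ∈ L := fun q hq' => hLh.symm.subset (List.mem_cons_of_mem _ hq')
  obtain ⟨n, hnd⟩ : ∃ n : ℝ, n = (X.card : ℝ) := ⟨_, rfl⟩
  have hn0 : 0 < n := by rw [hnd]; linarith only [hκp, hκpκ, hη1, hη₁1, hκ1, hκ₁η, b6, hcη]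
  have hfn : (F.size : ℝ) + 1 ≤ n := by rw [hnd]; linarith only [hC, hn]
  obtain ⟨S, hS, hSZ, hE⟩ := coreG (R := R) (X := X) (H := H) (Z := Z) (Za := insert y₀ Z) (h := y₀) (e := x) (ω := ω)
    (c := c) (μ := μ) (ε := ε) (δ := ε) (m := m) hω0 (by linarith only [hκp, hκpκ, hω1, hη1, hη₁1, hκ1, hκ₁η, hcη]) hc hμ0 hμω hε3
    (by exact_mod_cast b6) (by exact_mod_cast b7) h𝓕x hHX (by
      refine hHc.trans (mul_le_mul_of_nonneg_right ?_ (Nat.cast_nonneg _))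
      linarith only [hσ3]) (F := F) (L := L) (Lh := Lh) (cf := D)
    (t := fun q => ((q.2.size : ℝ) + 1) / (1 - 8 * η) + ((blk q.2 : ℝ) + 1) / γ + m₁) (by
      intro A Q P₀ a1 a2 a3 a4 a5 a6 a7 a8 a9 a10 a11
      obtain ⟨y, hy, B, hB, hyB, hN, hEm⟩ := hfin A Q P₀ a1 a2 a3 a4 a5 a6 a7 a8 a9 a10 a11
      exact ⟨y, hy, B, hB, hyB, hN, hEm⟩) hPE (Subset.refl _) (fun q hq' => (PE.host hPE q hq').1)
    hHE.symm (by
      have h1 : (insert y₀ Z).card ≤ p.e := (card_insert_le _ _).trans hZe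
      have h2 : ((insert y₀ Z).card : ℝ) ≤ p.e := by exact_mod_cast h1
      linarith only [b9, h2]) hLh hlen (fun q _ => by
      have : 0 < 1 - 8 * η := by linarith only [hκp, hκpκ, hη1, hη₁1, hκ1, hκ₁η, hcη]
      (clear * - this hγ; positivity)) (fun q hq' => by
      have h1 := hGd q (hmemL q hq')
      exact hL hT X q.1 (by exact_mod_cast b5) h1 ε μ hε0 hε1 hμ0 hμ1 q.2 (hq q (hmemL q hq')).2.1
        (hq q (hmemL q hq')).2.2) (by
      -- the sizes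
      have hη8 : 0 < 1 - 8 * η := by linarith only [hκp, hκpκ, hη1, hη₁1, hκ1, hκ₁η, hcη]
      have h1 := sum_le_isz η γ hη8 hγ (B := ((F.size : ℝ) + 1) / K) m₁ Lh (by
        intro q hq'
        have h2 := (hq q (hmemL q hq')).1
        rw [le_div_iff₀ hK0']
        have h3 : (K : ℝ) * ((blk q.2 : ℝ) + 1) ≤ F.size + 1 := by exact_mod_cast h2
        linarith only [h3])
      refine h1.trans ?_
      rw [← hnd]
      -- the total size
      have h2 : F.size = Z.card + (D.size + 1 + AEB.isz Lh) := by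
        rw [hPE.size]
        congr 1
        unfold AEB.isz
        rw [(hLh.map _).sum_eq]
        simp
      have h3 : (AEB.isz Lh : ℝ) + (D.size + 1) ≤ F.size := by
        have : AEB.isz Lh + (D.size + 1) ≤ F.size := by omega
        exact_mod_cast this
      have h4 : 2 * ω * (F.size + 1) ≤ D.size + 1 := by
        have g1 : (F.size : ℝ) + 1 ≤ D₀ * (D.size + 1) := by
          exact_mod_cast hsize.trans (Nat.mul_le_mul_right _ hD₀)
        have hD' : (64 : ℝ) ≤ D₀ := by exact_mod_cast hD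
        rw [hω]
        have g2 : 2 * (1 / (2 * (D₀ : ℝ))) * (F.size + 1) = (F.size + 1) / D₀ := by
          field_simp
        rw [g2, div_le_iff₀ (by linarith only [hκp, hκpκ, hη1, hη₁1, hκ1, hκ₁η, hcη, hD'])]
        linarith only [g1]
      have h5 : (AEB.isz Lh : ℝ) / (1 - 8 * η) ≤ (1 - ω) * n := by
        rw [div_le_iff₀ hη8, hη]
        have g1 : (AEB.isz Lh : ℝ) ≤ (1 - 2 * ω) * (F.size + 1) := by linarith only [hκp, hκpκ, hη1, hη₁1, hκ1, hκ₁η, hcη, h3, h4]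
        have g2 : (1 - 2 * ω) * ((F.size : ℝ) + 1) ≤ (1 - 2 * ω) * n := mul_le_mul_of_nonneg_left hfn (by linarith only [hκp, hκpκ, hω1, hη1, hη₁1, hκ1, hκ₁η, hcη])
        have g3 : (1 - ω) * n * (1 - 8 * (ω / 56)) = (1 - 2 * ω) * n + (6 * ω / 7 + ω * ω / 7) * n := by ring
        have g4 : 0 ≤ (6 * ω / 7 + ω * ω / 7) * n := by (clear * - hω0 hn0; positivity)
        linarith only [hκp, hκpκ, hη1, hη₁1, hκ1, hκ₁η, hcη, h3, h4, g2, g4]
      have h6 : (Lh.length : ℝ) * (((F.size : ℝ) + 1) / K / γ) ≤ ω / 4 * n := by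
        have g1 : (Lh.length : ℝ) ≤ m := by exact_mod_cast hlen
        have g2 : (0 : ℝ) ≤ ((F.size : ℝ) + 1) / K / γ := by (clear * - hK0 hγ; positivity)
        have g3 : ((F.size : ℝ) + 1) / K / γ ≤ n / K / γ :=
          div_le_div_of_nonneg_right (div_le_div_of_nonneg_right hfn hK0'.le) hγ.le
        have g4 : (Lh.length : ℝ) * (((F.size : ℝ) + 1) / K / γ) ≤ m * (n / K / γ) :=
          mul_le_mul g1 g3 g2 (Nat.cast_nonneg _)
        refine g4.trans ?_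
        have g5 : (m : ℝ) * (n / K / γ) = (m * n) / (γ * K) := by
          field_simp
        rw [g5, div_le_iff₀ (by positivity)]
        have g6 : 4 * (m : ℝ) * n ≤ γ * ω * K * n := mul_le_mul_of_nonneg_right hKm hn0.le
        linarith only [g6]
      have h7 : (Lh.length : ℝ) * (m₁ : ℝ) ≤ ω / 16 * n := by
        have g1 : (Lh.length : ℝ) ≤ m := by exact_mod_cast hlen
        have g2 : (Lh.length : ℝ) * (m₁ : ℝ) ≤ m * m₁ := mul_le_mul_of_nonneg_right g1 (Nat.cast_nonneg _)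
        rw [hnd]
        linarith only [b3, g2]
      have h8 : 0 ≤ ω * n := by positivity
      linarith only [h5, h6, h7, h8]) (by exact_mod_cast b4) (fun A 𝓕 => hhost A 𝓕)
  refine ⟨y₀, hy₀, Z ∪ S, union_subset hZX hS, ?_, hNy, hE⟩
  rw [mem_union, not_or]
  exact ⟨hyZ, fun h => disjoint_left.1 hSZ h (mem_insert_self _ _)⟩

end AEY
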