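import Pool.Agent.AEJ.Closure0

/-!
# Iterated jumps down to a rigid branch

`Rg p s` : the branch `p` is rigid with weight `s`. The coarse state of the trees with a rigid branch of linear weight at
the root is a hypothesis (`RigTo`).
-/

set_option autoImplicit false

namespace AEY

open Finset AE15 AED AELT AEK AEJ
open scoped Classical

/-- the coarse state of the trees with a rigid branch at the root -/
def RigTo (b : ℕ) (Rg : Bool × Fd → ℕ → Prop) : Prop :=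
  ∀ k e be th : ℝ, 0 < k → 0 < e → 0 < be → 0 < th → ∃ C0 : ℝ, ∀ C : ℝ, C0 ≤ C → ∀ (c : Fd) (p : Bool × Fd) (s : ℕ),
    c.len ≤ b → c.Deg b → p ∈ c.trees → Rg p s → th * (c.size + 1) ≤ (s : ℝ) + 1 → Coarse k e be C c

/-- at least `s` vertices of a rigid branch are not joined to the parent of the branch by directed paths -/
def RigW (Rg : Bool × Fd → ℕ → Prop) : Prop :=
  ∀ p s, Rg p s → (if p.1 then dcl p.2 else AEB.blk p.2) + s ≤ p.2.size

/-- trees with a chain of balanced branches which ends with a small branch or with a branch which has a rigid branch at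
its root -/
inductive BlR (θ : ℝ) (M : ℕ) (Rg : Bool × Fd → ℕ → Prop) : Fd → Prop
  | small (c : Fd) : c.size + 1 ≤ M → BlR θ M Rg c
  | rig (c : Fd) (p : Bool × Fd) (s : ℕ) : p ∈ c.trees → Rg p s → θ * (c.size + 1) ≤ (s : ℝ) + 1 → BlR θ M Rg c
  | step (c : Fd) (d0 : Bool) (q : Bool × Fd) (m : ℕ) : AESK.PtT 0 (d0, c) q m → q.2.size < c.size →
      θ * (c.size + 1) ≤ q.2.size + 1 → θ * (q.2.size + 1) + dcl q.2 + AEB.blk q.2 ≤ q.2.size + 1 → BlR θ M Rg q.2 →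
        BlR θ M Rg c

theorem BlR.of_bl {θ : ℝ} {M : ℕ} {Rg : Bool × Fd → ℕ → Prop} {c : Fd} (h : Bl θ M c) : BlR θ M Rg c := by
  induction h with
  | small c h => exact BlR.small c h
  | step c d0 q m h1 h2 h3 h4 _ ih => exact BlR.step c d0 q m h1 h2 h3 h4 ih

theorem rig_window {Rg : Bool × Fd → ℕ → Prop} (hw : RigW Rg) {c : Fd} {p : Bool × Fd} {s : ℕ} (hp : p ∈ c.trees)
    (h : Rg p s) : dcl c + AEB.blk c + s ≤ c.size := by
  have hperm : c.trees.Perm (p :: c.trees.erase p) := List.perm_cons_erase hp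
  have h0 := hw p s h
  have e1 : c.size = p.2.size + 1 + tsz (c.trees.erase p) := by
    rw [Fd.size_eq, (hperm.map _).sum_eq, List.map_cons, List.sum_cons]
    rfl
  have e2 : dcl c = (if p.1 then dcl p.2 + 1 else 0) + ((c.trees.erase p).map (fun p => if p.1 then dcl p.2 + 1 else 0)).sum := by
    rw [dcl_eq_sum, (hperm.map _).sum_eq, List.map_cons, List.sum_cons]
  have e3 : AEB.blk c = (if p.1 then 0 else AEB.blk p.2 + 1) +
      ((c.trees.erase p).map (fun p => if p.1 then 0 else AEB.blk p.2 + 1)).sum := by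
    rw [blk_eq_sum, (hperm.map _).sum_eq, List.map_cons, List.sum_cons]
  have e4 := dcl_add_blk_list (c.trees.erase p)
  cases hp1 : p.1
  · rw [hp1] at h0 e2 e3
    simp only [Bool.false_eq_true, if_false] at h0 e2 e3
    omega
  · rw [hp1] at h0 e2 e3
    simp only [if_true] at h0 e2 e3
    omega

theorem rig_window' {Rg : Bool × Fd → ℕ → Prop} (hw : RigW Rg) {θ : ℝ} {c : Fd} {p : Bool × Fd} {s : ℕ}
    (hp : p ∈ c.trees) (h : Rg p s) (hs : θ * (c.size + 1) ≤ (s : ℝ) + 1) :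
    θ * (c.size + 1) + dcl c + AEB.blk c ≤ c.size + 1 := by
  have h1 := rig_window hw hp h
  have h2 : (dcl c : ℝ) + AEB.blk c + s ≤ c.size := by exact_mod_cast h1
  linarith

/-- down to the size `T`, or to a branch with a rigid branch at its root -/
theorem descendR {θ T : ℝ} {M : ℕ} {Rg : Bool × Fd → ℕ → Prop} (hθ : 0 < θ) {c : Fd} (hM : (M : ℝ) ≤ T) (s : ℕ) :
    ∀ a : Bool × Fd, a.2.size = s → BlR θ M Rg a.2 → T < a.2.size + 1 → ∀ d0 m, AESK.PtT 0 (d0, c) a m →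
      (∃ q m', AESK.PtT 0 (d0, c) q m' ∧ θ * T ≤ q.2.size + 1 ∧ q.2.size + 1 ≤ T ∧
        θ * (q.2.size + 1) + dcl q.2 + AEB.blk q.2 ≤ q.2.size + 1 ∧ BlR θ M Rg q.2) ∨
      (∃ a' m', AESK.PtT 0 (d0, c) a' m' ∧ T < a'.2.size + 1 ∧ ∃ p s, p ∈ a'.2.trees ∧ Rg p s ∧
        θ * (a'.2.size + 1) ≤ (s : ℝ) + 1) := by
  induction s using Nat.strong_induction_on with
  | _ s ih =>
    rintro ⟨da, a⟩ hs hB hlt d0 m hP
    simp only at hs hB hlt
    cases hB with
    | small _ h =>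
      exfalso
      have : (a.size + 1 : ℝ) ≤ M := by exact_mod_cast h
      linarith
    | rig _ p w h1 h2 h3 => exact Or.inr ⟨_, _, hP, hlt, p, w, h1, h2, h3⟩
    | step _ d1 q m1 hP1 hq1 hq2 hq3 hBq =>
      have h1 : ∃ m', AESK.PtT 0 (da, a) q m' := by
        rcases ptT_dir hP1 with rfl | h
        · exact absurd rfl hq1.ne
        · exact h da
      obtain ⟨m', hm'⟩ := h1
      have h2 := hP.trans hm'
      have h3 : θ * T ≤ θ * (a.size + 1) := mul_le_mul_of_nonneg_left hlt.le hθ.le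
      by_cases h4 : (q.2.size : ℝ) + 1 ≤ T
      · exact Or.inl ⟨q, _, h2, by linarith, h4, hq3, hBq⟩
      · push Not at h4
        exact ih q.2.size (by omega) q rfl hBq h4 d0 _ h2

/-- a path continued in the last branch -/
theorem ptT_cont {c : Fd} {d0 : Bool} {q r : Bool × Fd} {m m' : ℕ} (h : AESK.PtT 0 (d0, c) q m)
    (h' : AESK.PtT 0 (true, q.2) r m') : ∃ r' m'', AESK.PtT 0 (d0, c) r' m'' ∧ r'.2 = r.2 := by
  rcases ptT_dir h' with rfl | h1
  · exact ⟨q, m, h, rfl⟩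
  · obtain ⟨m1, h2⟩ := h1 q.1
    exact ⟨r, _, h.trans h2, rfl⟩

section closure

variable {b : ℕ} {θ : ℝ} {M : ℕ} {Rg : Bool × Fd → ℕ → Prop}

/-- the coarse state of the tree, or of a branch of comparable size with a rigid branch at its root -/
theorem coarse_or (hb : 1 ≤ b) {k' e' be' : ℝ} (hθ : 0 < θ) (hk : 0 < k') (he : 0 < e')
    (hbe : 0 < be') (h : JumpTo0 b θ k' e' be') (hR : RigTo b Rg) (hw : RigW Rg) (M : ℕ) :
    ∃ κ₀ : ℝ, 0 < κ₀ ∧ κ₀ ≤ 1 / 2 ∧ ∃ C0 : ℝ, ∀ C : ℝ, C0 ≤ C → ∀ c : Fd, c.len ≤ b → c.Deg b → BlR θ M Rg c →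
      ∃ q m, AESK.PtT 0 (true, c) q m ∧ (q.2 = c ∨ (κ₀ * (c.size + 1) < q.2.size + 1 ∧
        θ * (q.2.size + 1) + dcl q.2 + AEB.blk q.2 ≤ q.2.size + 1)) ∧ Coarse k' e' be' C q.2 := by
  obtain ⟨κ₁, hκ₁, h⟩ := h k' e' be' hk he hbe
  obtain ⟨κ₀, hκ₀⟩ : ∃ κ₀ : ℝ, κ₀ = min κ₁ (1 / 2) := ⟨_, rfl⟩
  have hκ : 0 < κ₀ := by rw [hκ₀]; exact lt_min hκ₁ (by norm_num)
  have hκ1 : κ₀ ≤ κ₁ := by rw [hκ₀]; exact min_le_left _ _
  have hκ2 : κ₀ ≤ 1 / 2 := by rw [hκ₀]; exact min_le_right _ _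
  obtain ⟨C₁, hC₁⟩ := h (θ * κ₀ * κ₀) (by positivity)
  obtain ⟨C₂, hC₂⟩ := coarse_small hb (M := M / κ₀) hbe
  obtain ⟨C₃, hC₃⟩ := hR k' e' be' θ hk he hbe hθ
  refine ⟨κ₀, hκ, hκ2, max C₁ (max C₂ C₃), ?_⟩
  intro C hC c
  have hC1 : C₁ ≤ C := (le_max_left _ _).trans hC
  have hC2 : C₂ ≤ C := (le_max_left _ _).trans ((le_max_right _ _).trans hC)
  have hC3 : C₃ ≤ C := (le_max_right _ _).trans ((le_max_right _ _).trans hC)
  obtain ⟨s, hs⟩ : ∃ s, s = c.size := ⟨_, rfl⟩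
  induction s using Nat.strong_induction_on generalizing c with
  | _ s ih =>
    intro hl hD hB
    by_cases hsm : (c.size + 1 : ℝ) ≤ M / κ₀
    · exact ⟨(true, c), 0, AESK.PtT.refl, Or.inl rfl, hC₂ C hC2 k' e' c hl hD hsm⟩
    push Not at hsm
    rw [div_lt_iff₀ hκ] at hsm
    have hc1 : (1 : ℝ) ≤ c.size + 1 := by
      have : (0 : ℝ) ≤ c.size := Nat.cast_nonneg _
      linarith
    rcases descendR (T := κ₀ * (c.size + 1)) hθ (c := c) (M := M) (by linarith) c.size (true, c) rfl hB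
      (by simp only; nlinarith) true 0 AESK.PtT.refl with ⟨q, m, hP, hq1, hq2, hq3, hBq⟩ | ⟨a', m', hP, ha, p, w, h1, h2, h3⟩
    · obtain ⟨l, hl1, -⟩ := hP.spine
      obtain ⟨hql, hqD, -⟩ := AESK.spine_deg hl1 hl hD
      have hlt : q.2.size < c.size := by
        have h1 : (q.2.size : ℝ) + 1 < c.size + 1 := by nlinarith
        have h2 : (q.2.size : ℝ) < c.size := by linarith
        exact_mod_cast h2
      obtain ⟨r, mr, hr1, hr2, hr3⟩ := ih q.2.size (by omega) q.2 rfl hql hqD hBq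
      obtain ⟨r', m'', hP', hrr⟩ := ptT_cont hP hr1
      rw [← hrr] at hr2 hr3
      have hq0 : (0 : ℝ) ≤ q.2.size + 1 := by positivity
      have hrq : κ₀ * (q.2.size + 1) ≤ (r'.2.size : ℝ) + 1 ∧ (r'.2.size : ℝ) + 1 ≤ q.2.size + 1 ∧
          θ * (r'.2.size + 1) + dcl r'.2 + AEB.blk r'.2 ≤ r'.2.size + 1 := by
        rcases hr2 with hr2 | ⟨hr2, hr4⟩
        · rw [hr2]
          refine ⟨?_, le_refl _, hq3⟩
          nlinarith
        · refine ⟨hr2.le, ?_, hr4⟩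
          have h5 := hr1.sz_le
          unfold AESK.sz at h5
          simp only at h5
          rw [← hrr] at h5
          have h6 : (r'.2.size : ℝ) ≤ q.2.size := by
            have : r'.2.size ≤ q.2.size := by omega
            exact_mod_cast this
          linarith
      obtain ⟨g1, g2, g3⟩ := hrq
      refine ⟨(true, c), 0, AESK.PtT.refl, Or.inl rfl, ?_⟩
      refine hC₁ C hC1 c r' true m'' hl hD hP' ?_ ?_ g3 hr3
      · have h5 : κ₀ * (θ * (κ₀ * (c.size + 1))) ≤ κ₀ * (q.2.size + 1) := mul_le_mul_of_nonneg_left hq1 hκ.le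
        have h6 : θ * κ₀ * κ₀ * ((c.size : ℝ) + 1) = κ₀ * (θ * (κ₀ * (c.size + 1))) := by ring
        rw [h6]
        linarith
      · exact (g2.trans hq2).trans (mul_le_mul_of_nonneg_right hκ1 (by linarith))
    · obtain ⟨l, hl1, -⟩ := hP.spine
      obtain ⟨hql, hqD, -⟩ := AESK.spine_deg hl1 hl hD
      exact ⟨a', m', hP, Or.inr ⟨ha, rig_window' hw h1 h2 h3⟩, hC₃ C hC3 a'.2 p w hql hqD h1 h2 h3⟩

/-- the coarse state with arbitrary constants, or a branch of comparable size with a rigid branch at its root -/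
theorem coarse_or' (hb : 1 ≤ b) (hJ : JumpSt0 b) (hθ : 0 < θ) (hθ1 : θ ≤ 1) (hR : RigTo b Rg) (hw : RigW Rg) (M : ℕ)
    {k e be : ℝ} (hk : 0 < k) (he : 0 < e) (hbe : 0 < be) :
    ∃ κ₀ : ℝ, 0 < κ₀ ∧ κ₀ ≤ 1 / 2 ∧ ∀ th : ℝ, 0 < th → ∃ C0 : ℝ, ∀ C : ℝ, C0 ≤ C → ∀ (c : Fd) (q : Bool × Fd) (d0 : Bool)
      (m : ℕ), c.len ≤ b → c.Deg b → AESK.PtT 0 (d0, c) q m → th * (c.size + 1) ≤ q.2.size + 1 →
        q.2.size + 1 ≤ κ₀ * (c.size + 1) → θ * (q.2.size + 1) + dcl q.2 + AEB.blk q.2 ≤ q.2.size + 1 →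
          BlR θ M Rg q.2 → Coarse k e be C c := by
  obtain ⟨k', e', be', hk', he', hbe', h⟩ := hJ θ hθ hθ1
  obtain ⟨κ₂, hκ₂, hκ₂h, C₂, hC₂⟩ := coarse_or hb hθ hk' he' hbe' h hR hw M
  obtain ⟨κ₁, hκ₁, h⟩ := h k e be hk he hbe
  refine ⟨min κ₁ (1 / 2), lt_min hκ₁ (by norm_num), min_le_right _ _, ?_⟩
  intro th hth
  obtain ⟨C₁, hC₁⟩ := h (κ₂ * th) (by positivity)
  refine ⟨max C₁ C₂, ?_⟩
  intro C hC c q d0 m hl hD hP hq1 hq2 hq3 hBq
  have hC1 : C₁ ≤ C := (le_max_left _ _).trans hC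
  have hC2 : C₂ ≤ C := (le_max_right _ _).trans hC
  obtain ⟨l, hl1, -⟩ := hP.spine
  obtain ⟨hql, hqD, -⟩ := AESK.spine_deg hl1 hl hD
  obtain ⟨r, mr, hr1, hr2, hr3⟩ := hC₂ C hC2 q.2 hql hqD hBq
  obtain ⟨r', m'', hP', hrr⟩ := ptT_cont hP hr1
  rw [← hrr] at hr2 hr3
  have hq0 : (0 : ℝ) ≤ q.2.size + 1 := by positivity
  have hc0 : (0 : ℝ) ≤ c.size + 1 := by positivity
  have hrq : κ₂ * (q.2.size + 1) ≤ (r'.2.size : ℝ) + 1 ∧ (r'.2.size : ℝ) + 1 ≤ q.2.size + 1 ∧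
      θ * (r'.2.size + 1) + dcl r'.2 + AEB.blk r'.2 ≤ r'.2.size + 1 := by
    rcases hr2 with hr2 | ⟨hr2, hr4⟩
    · rw [hr2]
      refine ⟨?_, le_refl _, hq3⟩
      nlinarith
    · refine ⟨hr2.le, ?_, hr4⟩
      have h5 := hr1.sz_le
      unfold AESK.sz at h5
      simp only at h5
      rw [← hrr] at h5
      have h6 : (r'.2.size : ℝ) ≤ q.2.size := by
        have : r'.2.size ≤ q.2.size := by omega
        exact_mod_cast this
      linarith
  obtain ⟨g1, g2, g3⟩ := hrq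
  have n1 : κ₂ * th * ((c.size : ℝ) + 1) ≤ r'.2.size + 1 := by
    have h5 : κ₂ * (th * (c.size + 1)) ≤ κ₂ * (q.2.size + 1) := mul_le_mul_of_nonneg_left hq1 hκ₂.le
    have h6 : κ₂ * th * ((c.size : ℝ) + 1) = κ₂ * (th * (c.size + 1)) := by ring
    rw [h6]
    linarith
  have n2 : (r'.2.size : ℝ) + 1 ≤ κ₁ * (c.size + 1) :=
    (g2.trans hq2).trans (mul_le_mul_of_nonneg_right (min_le_left _ _) hc0)
  intro V R
  exact hC₁ C hC1 c r' d0 m'' hl hD hP' n1 n2 g3 hr3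

/-! ### another root -/

/-- the root of a branch becomes the root of the tree -/
theorem reroot_in {c : Fd} {d0 : Bool} {a : Bool × Fd} {m : ℕ} (h : AESK.PtT 0 (d0, c) a m) (hl : c.len ≤ b)
    (hD : c.Deg b) : ∃ c' : Fd, (∀ t ∈ a.2.trees, t ∈ c'.trees) ∧ c'.len ≤ b + 1 ∧ c'.Deg (b + 1) ∧ c'.size = c.size ∧
      dcl c' + AEB.blk c' + a.2.size ≤ dcl a.2 + AEB.blk a.2 + c.size ∧
      ∀ {V : Type} {R : V → V → Prop} (X : Finset V), In R c' (fun _ => True) X → In R c (fun _ => True) X := by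
  obtain ⟨U, u1, u2, u3, u4⟩ := reroot_pt h hl hD
  obtain ⟨l, hl1, -⟩ := h.spine
  obtain ⟨hql, hqD, -⟩ := AESK.spine_deg hl1 hl hD
  simp only at u3
  obtain ⟨c', hc'⟩ : ∃ c', c' = AESK.mk (a.2.trees ++ U) := ⟨_, rfl⟩
  have hct : c'.trees = a.2.trees ++ U := by rw [hc', AESK.mk_trees]
  have hcs : c'.size = c.size := by
    rw [hc', AESK.mk_size]
    have h1 : tsz (a.2.trees ++ U) = tsz a.2.trees + tsz U := by
      simp [tsz, List.map_append, List.sum_append]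
    have h2 : a.2.size = tsz a.2.trees := Fd.size_eq _
    rw [h1]
    omega
  refine ⟨c', ?_, ?_, ?_, hcs, ?_, ?_⟩
  · intro t ht
    rw [hct]
    exact List.mem_append_left _ ht
  · rw [Fd.len_eq, hct, List.length_append]
    rw [Fd.len_eq] at hql
    omega
  · refine deg_mono (Nat.le_succ b) ?_
    rw [hc', AESK.mk_deg]
    intro t ht
    rcases List.mem_append.1 ht with h1 | h1
    · exact (Fd.deg_iff b _).1 hqD t h1
    · exact u2 t h1
  · have h1 : dcl c' = dcl a.2 + (U.map (fun p => if p.1 then dcl p.2 + 1 else 0)).sum := by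
      rw [dcl_eq_sum, hct, List.map_append, List.sum_append, ← dcl_eq_sum]
    have h2 : AEB.blk c' = AEB.blk a.2 + (U.map (fun p => if p.1 then 0 else AEB.blk p.2 + 1)).sum := by
      rw [blk_eq_sum, hct, List.map_append, List.sum_append, ← blk_eq_sum]
    have h3 := dcl_add_blk_list U
    omega
  · intro V R X hin
    obtain ⟨x, hx, A, hA, hxA, -, hE⟩ := hin
    rw [emb_iff, hct] at hE
    obtain ⟨y, B', b1, b2, b3⟩ := u4 x A hxA hE
    have b4 : insert y B' ⊆ X := by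
      rw [b2]
      exact insert_subset hx hA
    exact ⟨y, b4 (mem_insert_self _ _), B', (subset_insert _ _).trans b4, b1, trivial, b3⟩

/-- the unrooted statement from the coarse state, if there is a window -/
theorem in_of_coarse {c : Fd} {w C : ℝ} (hw0 : 0 < w) (hw1 : w ≤ 1) (hC : 24 ≤ C * w) (hC0 : 0 ≤ C)
    (hwin : w * (c.size + 1) + dcl c + AEB.blk c ≤ c.size + 1) (hco : Coarse (w / 64) (w / 8) (w / 4) C c) {V : Type}
    {R : V → V → Prop} (hT : AE32.Tour R) (X : Finset V) (hX : (c.size : ℝ) + 1 + C ≤ X.card) :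
    In R c (fun _ => True) X := by
  refine hco hT X (fun _ => True) hX ?_
  have h1 := adm_mid hT (e := w / 8) (by positivity) c X (N := fun _ => True) (fun _ => trivial)
  have e1 : w / 8 / 8 = w / 64 := by ring
  rw [e1] at h1
  refine le_trans ?_ h1
  have h2 : (c.size : ℝ) + 1 ≤ X.card := by linarith
  have h3 : (1 - w) * ((c.size : ℝ) + 1) ≤ (1 - w) * X.card := mul_le_mul_of_nonneg_left h2 (by linarith)
  have h4 : (C : ℝ) ≤ X.card := by
    have : (0 : ℝ) ≤ c.size := Nat.cast_nonneg _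
    linarith
  have h5 : w * C ≤ w * X.card := mul_le_mul_of_nonneg_left h4 hw0.le
  linarith

/-- **Trees with a chain of balanced branches which ends with a small or with a rigid branch** -/
theorem scalesR (hb : 1 ≤ b) (hJ : JumpSt0 (b + 1)) (hR : RigTo (b + 1) Rg) (hw : RigW Rg) (hθ : 0 < θ)
    (hθ1 : θ ≤ 1) (M : ℕ) : ∃ C : ℕ, ∀ {V : Type} {R : V → V → Prop}, AE32.Tour R → ∀ c : Fd, c.len ≤ b → c.Deg b →
      BlR θ M Rg c → ∀ X : Finset V, c.size + 1 + C ≤ X.card → In R c (fun _ => True) X := by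
  obtain ⟨w, hw'⟩ : ∃ w : ℝ, w = θ * θ := ⟨_, rfl⟩
  have hw0 : 0 < w := by rw [hw']; positivity
  have hw1 : w ≤ 1 := by rw [hw']; nlinarith
  obtain ⟨κ₀, hκ₀, -, h⟩ := coarse_or' (b := b + 1) (by omega) hJ hθ hθ1 hR hw M (k := w / 64) (e := w / 8) (be := w / 4)
    (by positivity) (by positivity) (by positivity)
  obtain ⟨κ₁, hκ₁⟩ : ∃ κ₁ : ℝ, κ₁ = min κ₀ (θ / 2) := ⟨_, rfl⟩
  have hκ : 0 < κ₁ := by rw [hκ₁]; exact lt_min hκ₀ (by positivity)
  have hκa : κ₁ ≤ κ₀ := by rw [hκ₁]; exact min_le_left _ _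
  have hκb : κ₁ ≤ θ / 2 := by rw [hκ₁]; exact min_le_right _ _
  obtain ⟨C₁, hC₁⟩ := h (θ * κ₁) (by positivity)
  obtain ⟨v, hv⟩ : ∃ v : ℝ, v = θ * κ₁ := ⟨_, rfl⟩
  have hv0 : 0 < v := by rw [hv]; positivity
  have hvθ : v ≤ θ := by rw [hv]; nlinarith
  obtain ⟨C₂, hC₂⟩ := hR (v / 64) (v / 8) (v / 4) v (by positivity) (by positivity) (by positivity) hv0
  obtain ⟨C₃, hC₃0, hU⟩ := un_one b hb (β := 1) one_pos
  obtain ⟨L, hL⟩ : ∃ L : ℝ, L = M / κ₁ + M := ⟨_, rfl⟩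
  obtain ⟨C, hC⟩ : ∃ C : ℕ, C = ⌈max (max C₁ C₂) (max (L + C₃) (max (24 / w) (24 / v)))⌉₊ := ⟨_, rfl⟩
  have hC' : max (max C₁ C₂) (max (L + C₃) (max (24 / w) (24 / v))) ≤ (C : ℝ) := by rw [hC]; exact Nat.le_ceil _
  have c1 : C₁ ≤ C := (le_max_left _ _).trans ((le_max_left _ _).trans hC')
  have c2 : C₂ ≤ C := (le_max_right _ _).trans ((le_max_left _ _).trans hC')
  have c3 : L + C₃ ≤ C := (le_max_left _ _).trans ((le_max_right _ _).trans hC')
  have c4 : 24 / w ≤ C := (le_max_left _ _).trans ((le_max_right _ _).trans ((le_max_right _ _).trans hC'))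
  have c5 : 24 / v ≤ C := (le_max_right _ _).trans ((le_max_right _ _).trans ((le_max_right _ _).trans hC'))
  rw [div_le_iff₀ hw0] at c4
  rw [div_le_iff₀ hv0] at c5
  have c0 : (0 : ℝ) ≤ C := Nat.cast_nonneg _
  refine ⟨C, ?_⟩
  intro V R hT c hl hD hB X hX
  have hXR : (c.size : ℝ) + 1 + C ≤ X.card := by exact_mod_cast hX
  by_cases hsm : (c.size + 1 : ℝ) ≤ L
  · exact hU hT c hl hD X (by norm_num; linarith)
  push Not at hsm
  have hM0 : (0 : ℝ) ≤ M := Nat.cast_nonneg _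
  have hMκ : 0 ≤ M / κ₁ := by positivity
  have hsM : (M : ℝ) < c.size + 1 := by linarith
  have hsκ : (M : ℝ) < κ₁ * (c.size + 1) := by
    have h1 : M / κ₁ < c.size + 1 := by linarith
    rw [div_lt_iff₀ hκ] at h1
    linarith
  have hs1 : (0 : ℝ) < c.size + 1 := by positivity
  -- a rigid branch at the root of a branch
  have hrig : ∀ (d0 : Bool) (a p : Bool × Fd) (s m : ℕ), AESK.PtT 0 (d0, c) a m → p ∈ a.2.trees → Rg p s →
      v * (c.size + 1) ≤ (s : ℝ) + 1 → In R c (fun _ => True) X := by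
    intro d0 a p s m hP hp hRg hs
    obtain ⟨c', g1, g2, g3, g4, -, g6⟩ := reroot_in hP hl hD
    have hs' : v * ((c'.size : ℝ) + 1) ≤ (s : ℝ) + 1 := by rw [g4]; exact hs
    refine g6 X (in_of_coarse hv0 (hvθ.trans hθ1) c5 c0 (rig_window' hw (g1 p hp) hRg hs') (hC₂ C c2 c' p s g2 g3 (g1 p hp)
      hRg hs') hT X (by rw [g4]; exact hXR))
  cases hB with
  | small _ h0 =>
    exfalso
    have : (c.size + 1 : ℝ) ≤ M := by exact_mod_cast h0
    linarith
  | rig _ p s h1 h2 h3 =>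
    refine hrig true (true, c) p s 0 AESK.PtT.refl h1 h2 ?_
    exact (mul_le_mul_of_nonneg_right hvθ hs1.le).trans h3
  | step _ d0 q m hP hq1 hq2 hq3 hBq =>
    have hT0 : κ₁ * ((c.size : ℝ) + 1) < q.2.size + 1 := by
      have h1 : κ₁ * ((c.size : ℝ) + 1) ≤ θ / 2 * (c.size + 1) := mul_le_mul_of_nonneg_right hκb hs1.le
      have h2 : 0 < θ * ((c.size : ℝ) + 1) := by positivity
      linarith
    rcases descendR (T := κ₁ * (c.size + 1)) hθ (c := q.2) (M := M) hsκ.le q.2.size (true, q.2) rfl hBq hT0 true 0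
      AESK.PtT.refl with ⟨q₂, m₂, f1, f2, f3, f4, f5⟩ | ⟨a, m₂, f1, f2, p, s, f3, f4, f5⟩
    · obtain ⟨c', g1, g2, g3, g4, g5, g6⟩ := reroot_in hP hl hD
      have hwin : w * (c'.size + 1) + dcl c' + AEB.blk c' ≤ c'.size + 1 := by
        have h1 : θ * (θ * (c.size + 1)) ≤ θ * (q.2.size + 1) := mul_le_mul_of_nonneg_left hq2 hθ.le
        have h2 : (dcl c' : ℝ) + AEB.blk c' + q.2.size ≤ dcl q.2 + AEB.blk q.2 + c.size := by exact_mod_cast g5
        rw [hw', g4]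
        linarith
      have hP2 : ∃ m', AESK.PtT 0 (true, c') q₂ m' := by
        rcases ptT_sub f1 (c := c') g1 with rfl | h1
        · exfalso
          simp only at f3
          linarith
        · exact h1 true
      obtain ⟨m', hm'⟩ := hP2
      have hco : Coarse (w / 64) (w / 8) (w / 4) C c' := by
        refine hC₁ C c1 c' q₂ true m' g2 g3 hm' ?_ ?_ f4 f5
        · rw [g4]
          linarith
        · rw [g4]
          exact f3.trans (mul_le_mul_of_nonneg_right hκa hs1.le)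
      exact g6 X (in_of_coarse hw0 hw1 c4 c0 hwin hco hT X (by rw [g4]; exact hXR))
    · obtain ⟨a', m', hP', haa⟩ := ptT_cont hP f1
      refine hrig d0 a' p s m' hP' (by rw [haa]; exact f3) f4 ?_
      have h1 : θ * (κ₁ * (c.size + 1)) ≤ θ * (a.2.size + 1) := mul_le_mul_of_nonneg_left f2.le hθ.le
      rw [hv]
      linarith

end closure

end AEY
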