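import Pool.Agent.AET.CfgDL

/-!
# Main lines which may end in an exit tree: the predicate on forests

`FX b l K Q j F`: as `FOL`, but the main line from the common vertex may end (by an arc directed away from the root) in a
tree with children forest `c`, `Q c`, for which the in-closure of the root has at most `1 / K` of the number of vertices
behind the last vertex of the main line.
-/

set_option autoImplicit false

namespace AEY

open Finset AE15 AED AEB AET
open scoped Classical

variable {V : Type*} {R : V → V → Prop} {Q : Fd → Prop}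

/-- `S` is the number of vertices behind the common vertex `u`, `j` the number of the parent arc of `u` in a run directed
towards the root; the first tree has maximal size -/
def InX (l K : ℕ) (Q : Fd → Prop) : ℕ → ℕ → Fd → Prop
  | _, _, .nil => True
  | S, j, .node d c s => (if d then (Q c ∧ K * (blk c + 1) ≤ S) ∨ InX l K Q (c.size + 1) 0 c
      else j + 1 ≤ l ∧ InX l K Q (c.size + 1) (j + 1) c) ∧ InL l K false S j s ∧ ∀ q ∈ s.trees, q.2.size ≤ c.size

/-- all conditions on the forest -/
def FX (b l K : ℕ) (Q : Fd → Prop) (j : ℕ) (F : Fd) : Prop := F.len ≤ b ∧ F.Deg b ∧ InX l K Q (F.size + 1) j F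

/-- an exit: the tree hangs by an arc away from the root, `S` vertices are behind the vertex on which it hangs -/
def Exi (b K S : ℕ) (Q : Fd → Prop) (c : Fd) : Prop := c.len ≤ b ∧ c.Deg b ∧ Q c ∧ K * (blk c + 1) ≤ S

theorem inX_of_inL {l K : ℕ} (F : Fd) : ∀ {S j : ℕ}, InL l K true S j F → InX l K Q S j F := by
  induction F with
  | nil => intro S j _; trivial
  | node d c s ihc _ =>
    intro S j h
    refine ⟨?_, h.2.1, h.2.2 rfl⟩
    have h1 := h.1
    cases d with
    | true =>
      simp only [if_true, Bool.true_eq_false, false_and, false_or] at h1 ⊢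
      exact Or.inr (ihc h1)
    | false =>
      simp only [Bool.false_eq_true, if_false] at h1 ⊢
      exact ⟨h1.1, ihc h1.2⟩

theorem FX.of_fol {b l K j : ℕ} {F : Fd} (h : FOL b l K j F) : FX b l K Q j F :=
  ⟨h.1, h.2.1, inX_of_inL F h.2.2⟩

/-- the first tree is the heavy one -/
theorem InX.hv {l K S j : ℕ} {d : Bool} {c s : Fd} (h : InX l K Q S j (.node d c s)) :
    (Fd.node d c s).hv = some (d, c) := by
  have h1 := h.2.2
  simp only [Fd.hv]
  cases hs : s.hv with
  | none => rfl
  | some q =>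
    simp only
    rw [if_pos (h1 q (hv_mem hs))]

/-- the heavy child, away from the root -/
theorem FX.heavy {b l K j : ℕ} {F c : Fd} (h : FX b l K Q j F) (hp : F.hv = some (true, c)) :
    FX b l K Q 0 c ∨ Exi b K (F.size + 1) Q c := by
  obtain ⟨-, h2, h3⟩ := h
  cases F with
  | nil => simp [Fd.hv] at hp
  | node d c' s =>
    rw [h3.hv] at hp
    simp only [Option.some.injEq, Prod.mk.injEq] at hp
    obtain ⟨rfl, rfl⟩ := hp
    have h4 := h3.1
    simp only [if_true] at h4
    rcases h4 with h4 | h4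
    · exact Or.inr ⟨h2.1, h2.2.1, h4.1, h4.2⟩
    · exact Or.inl ⟨h2.1, h2.2.1, h4⟩

/-- the heavy child, towards the root -/
theorem FX.heavy_in {b l K j : ℕ} {F c : Fd} (h : FX b l K Q j F) (hp : F.hv = some (false, c)) :
    FX b l K Q (j + 1) c ∧ j + 1 ≤ l := by
  obtain ⟨-, h2, h3⟩ := h
  cases F with
  | nil => simp [Fd.hv] at hp
  | node d c' s =>
    rw [h3.hv] at hp
    simp only [Option.some.injEq, Prod.mk.injEq] at hp
    obtain ⟨rfl, rfl⟩ := hp
    have h4 := h3.1
    simp only [Bool.false_eq_true, if_false] at h4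
    exact ⟨⟨h2.1, h2.2.1, h4.2⟩, h4.1⟩

/-- the in-children which are not heavy -/
theorem FX.child_in {b l K j : ℕ} {F c t : Fd} (h : FX b l K Q j F) (hp : F.hv = some (true, c))
    (ht : (false, t) ∈ F.trees) : FOL b l K (j + 1) t ∧ j + 1 ≤ l := by
  obtain ⟨-, h2, h3⟩ := h
  cases F with
  | nil => simp [Fd.hv] at hp
  | node d c' s =>
    have h5 := (Fd.deg_iff b _).1 h2 _ ht
    rw [h3.hv] at hp
    simp only [Option.some.injEq, Prod.mk.injEq] at hp
    obtain ⟨rfl, rfl⟩ := hp
    simp only [Fd.trees, List.mem_cons, Prod.mk.injEq, Bool.false_eq_true, false_and, false_or] at ht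
    obtain ⟨-, h6⟩ := h3.2.1.child ht
    obtain ⟨h6, h7⟩ := h6 rfl
    exact ⟨⟨h5.1, h5.2, h7⟩, h6⟩

theorem FX.len_le {b l K j : ℕ} {F : Fd} (h : FX b l K Q j F) : F.len ≤ b := h.1

private theorem geo_succ (b m : ℕ) : ∑ i ∈ range (m + 1), b ^ i = b * ∑ i ∈ range m, b ^ i + 1 := by
  rw [sum_range_succ', mul_sum, pow_zero]
  congr 1
  exact sum_congr rfl fun i _ => by rw [pow_succ, mul_comm]

private theorem blk_le_aux {b l K : ℕ} (F : Fd) : ∀ {e : Bool} {S j : ℕ}, F.Deg b → InL l K e S j F → j ≤ l →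
    blk F ≤ F.len * ∑ i ∈ range (l - j), b ^ i := by
  induction F with
  | nil => intro e S j _ _ _; simp [blk]
  | node d c s ihc ihs =>
    intro e S j hd hr hj
    have h1 := ihs hd.2.2 hr.2.1 hj
    simp only [blk, Fd.len, add_mul, one_mul]
    cases d with
    | true =>
      simp only [if_true]
      omega
    | false =>
      have h2 := hr.1
      simp only [Bool.false_eq_true, if_false] at h2 ⊢
      have h3 := ihc hd.2.1 h2.2 h2.1
      have h4 : l - j = (l - (j + 1)) + 1 := by omega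
      have h5 : c.len * ∑ i ∈ range (l - (j + 1)), b ^ i ≤ b * ∑ i ∈ range (l - (j + 1)), b ^ i :=
        Nat.mul_le_mul_right _ hd.1
      have h6 := geo_succ b (l - (j + 1))
      rw [← h4] at h6
      omega

private theorem blk_le_auxX {b l K : ℕ} (F : Fd) : ∀ {S j : ℕ}, F.Deg b → InX l K Q S j F → j ≤ l →
    blk F ≤ F.len * ∑ i ∈ range (l - j), b ^ i := by
  induction F with
  | nil => intro S j _ _ _; simp [blk]
  | node d c s ihc _ =>
    intro S j hd hr hj
    have h1 := blk_le_aux s hd.2.2 hr.2.1 hj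
    simp only [blk, Fd.len, add_mul, one_mul]
    cases d with
    | true =>
      simp only [if_true]
      omega
    | false =>
      have h2 := hr.1
      simp only [Bool.false_eq_true, if_false] at h2 ⊢
      have h3 := ihc hd.2.1 h2.2 h2.1
      have h4 : l - j = (l - (j + 1)) + 1 := by omega
      have h5 : c.len * ∑ i ∈ range (l - (j + 1)), b ^ i ≤ b * ∑ i ∈ range (l - (j + 1)), b ^ i :=
        Nat.mul_le_mul_right _ hd.1
      have h6 := geo_succ b (l - (j + 1))
      rw [← h4] at h6
      omega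

theorem FX.blk_le {b l K j : ℕ} {F : Fd} (h : FX b l K Q j F) (hj : j ≤ l) :
    blk F + 1 ≤ ∑ i ∈ range (l + 1 - j), b ^ i := by
  have h1 := blk_le_auxX F h.2.1 h.2.2 hj
  have h2 : l + 1 - j = (l - j) + 1 := by omega
  rw [h2, geo_succ]
  have h3 : F.len * ∑ i ∈ range (l - j), b ^ i ≤ b * ∑ i ∈ range (l - j), b ^ i := Nat.mul_le_mul_right _ h.1
  omega

theorem FX.blk_lt_a {b l K j a : ℕ} {F : Fd} (h : FX b l K Q j F) (hj : j ≤ l) (ha : ab b l ≤ a) : blk F + 1 ≤ a := by
  refine (h.blk_le hj).trans (le_trans ?_ ha)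
  unfold ab
  apply sum_le_sum_of_subset
  intro i hi
  rw [Finset.mem_range] at hi ⊢
  omega

private theorem outB_aux {b l K M a : ℕ} (ha : ab b l ≤ a) (hKa : K * a ≤ M) (F : Fd) : ∀ {e : Bool} {S j : ℕ},
    F.Deg b → InL l K e S j F → j ≤ l → S ≤ M → F.size + 1 ≤ M → OutB (Qi K b M) F := by
  induction F with
  | nil => intro e S j _ _ _ _ _; trivial
  | node d c s ihc ihs =>
    intro e S j hd hr hj hS hM
    simp only [Fd.size] at hM
    refine ⟨?_, ihs hd.2.2 hr.2.1 hj hS (by omega)⟩
    cases d with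
    | true =>
      have h1 := hr.1
      simp only [if_true] at h1 ⊢
      rcases h1 with h1 | h1
      · exact ⟨h1.2.trans hS, hd.1, hd.2.1⟩
      · have h2 : FOL b l K 0 c := ⟨hd.1, hd.2.1, h1⟩
        exact ⟨(Nat.mul_le_mul_left _ (h2.blk_lt_a (Nat.zero_le _) ha)).trans hKa, hd.1, hd.2.1⟩
    | false =>
      have h1 := hr.1
      simp only [Bool.false_eq_true, if_false] at h1 ⊢
      exact ihc hd.2.1 h1.2 h1.1 (by omega) (by omega)

private theorem outB_auxX {b l K M a : ℕ} (ha : ab b l ≤ a) (hKa : K * a ≤ M) (F : Fd) : ∀ {S j : ℕ},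
    F.Deg b → InX l K Q S j F → j ≤ l → S ≤ M → F.size + 1 ≤ M → OutB (Qi K b M) F := by
  induction F with
  | nil => intro S j _ _ _ _ _; trivial
  | node d c s ihc _ =>
    intro S j hd hr hj hS hM
    simp only [Fd.size] at hM
    refine ⟨?_, outB_aux ha hKa s hd.2.2 hr.2.1 hj hS (by omega)⟩
    cases d with
    | true =>
      have h1 := hr.1
      simp only [if_true] at h1 ⊢
      rcases h1 with h1 | h1
      · exact ⟨h1.2.trans hS, hd.1, hd.2.1⟩
      · have h2 : FX b l K Q 0 c := ⟨hd.1, hd.2.1, h1⟩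
        exact ⟨(Nat.mul_le_mul_left _ (h2.blk_lt_a (Nat.zero_le _) ha)).trans hKa, hd.1, hd.2.1⟩
    | false =>
      have h1 := hr.1
      simp only [Bool.false_eq_true, if_false] at h1 ⊢
      exact ihc hd.2.1 h1.2 h1.1 (by omega) (by omega)

theorem FX.outB {b l K M a j : ℕ} {F : Fd} (h : FX b l K Q j F) (hj : j ≤ l) (ha : ab b l ≤ a) (hKa : K * a ≤ M)
    (hM : F.size + 1 ≤ M) : OutB (Qi K b M) F :=
  outB_auxX ha hKa F h.2.1 h.2.2 hj hM hM

/-- the main line continues or there is an exit (`M` bounds the number of vertices) -/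
def FE (b l K M : ℕ) (Q : Fd → Prop) (D : Fd) : Prop := FX b l K Q 0 D ∨ Exi b K M Q D

theorem FE.mono {b l K M M' : ℕ} {D : Fd} (h : FE b l K M Q D) (hM : M ≤ M') : FE b l K M' Q D :=
  h.imp id fun h => ⟨h.1, h.2.1, h.2.2.1, h.2.2.2.trans hM⟩

theorem FE.len {b l K M : ℕ} {D : Fd} (h : FE b l K M Q D) : D.len ≤ b := h.elim (fun h => h.1) fun h => h.1

theorem FE.deg {b l K M : ℕ} {D : Fd} (h : FE b l K M Q D) : D.Deg b := h.elim (fun h => h.2.1) fun h => h.2.1

private theorem turn_of {b l K : ℕ} (hb : 1 ≤ b) : ∀ (m j : ℕ) {F c : Fd}, l - j = m → FX b l K Q j F →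
    F.hv = some (false, c) → (2 * b) ^ (m + 2) ≤ F.size →
    ∃ D, Turn F D ∧ FE b l K (F.size + 1) Q D ∧ D.size < F.size ∧ F.size + 1 ≤ (2 * b) ^ (m + 1) * (D.size + 1) := by
  intro m
  induction m with
  | zero =>
    intro j F c hm h hc _
    have h1 := (h.heavy_in hc).2
    omega
  | succ m ih =>
    intro j F c hm h hc hs
    obtain ⟨h1, h2⟩ := h.heavy_in hc
    have h3 : F.size + 1 ≤ 2 * b * (c.size + 1) := step_size hb hc h.1
    have h4 : (2 * b) ^ (m + 2) ≤ c.size := big_child hb hc h.1 hs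
    have h5 : c.size < F.size := (hv_size hc h.1).2
    have hpos : 1 ≤ (2 * b) ^ m := Nat.one_le_pow _ _ (by omega)
    cases hc' : c.hv with
    | none =>
      obtain rfl := hv_none.1 hc'
      have h6 : 1 ≤ (2 * b) ^ (m + 2) := Nat.one_le_pow _ _ (by omega)
      simp only [Fd.size] at h4
      omega
    | some p =>
      obtain ⟨d, D⟩ := p
      cases d with
      | true =>
        have h6 := h1.heavy hc'
        have h7 : c.size + 1 ≤ 2 * b * (D.size + 1) := step_size hb hc' h1.1
        have h8 : D.size < c.size := (hv_size hc' h1.1).2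
        have h9 : FE b l K (F.size + 1) Q D := FE.mono (M := c.size + 1) h6 (by omega)
        refine ⟨D, Turn.one F c D hc hc', h9, h8.trans h5, ?_⟩
        calc F.size + 1 ≤ 2 * b * (c.size + 1) := h3
          _ ≤ 2 * b * (2 * b * (D.size + 1)) := Nat.mul_le_mul_left _ h7
          _ = 1 * ((2 * b) ^ 2 * (D.size + 1)) := by ring
          _ ≤ (2 * b) ^ m * ((2 * b) ^ 2 * (D.size + 1)) := Nat.mul_le_mul_right _ hpos
          _ = (2 * b) ^ (m + 1 + 1) * (D.size + 1) := by ring
      | false =>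
        obtain ⟨E, h6, h7, h8, h9⟩ := ih (j + 1) (by omega) h1 hc' h4
        refine ⟨E, Turn.more F c E hc h6, h7.mono (by omega), h8.trans h5, ?_⟩
        calc F.size + 1 ≤ 2 * b * (c.size + 1) := h3
          _ ≤ 2 * b * ((2 * b) ^ (m + 1) * (E.size + 1)) := Nat.mul_le_mul_left _ h9
          _ = (2 * b) ^ (m + 1 + 1) * (E.size + 1) := by ring

/-- routing -/
theorem routeX {b l K : ℕ} (hb : 1 ≤ b) {F : Fd} (h : FX b l K Q 0 F) (hs : (2 * b) ^ (l + 3) ≤ F.size) :
    (∃ c, F.hv = some (true, c) ∧ Exi b K (F.size + 1) Q c) ∨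
    (∃ c c', F.hv = some (true, c) ∧ c.hv = some (true, c') ∧ FX b l K Q 0 c ∧ FE b l K (F.size + 1) Q c') ∨
      (∃ D, Turn F D ∧ FE b l K (F.size + 1) Q D ∧ D.size < F.size ∧ F.size + 1 ≤ (2 * b) ^ (l + 2) * (D.size + 1)) ∨
      ∃ c D, F.hv = some (true, c) ∧ Turn c D ∧ FX b l K Q 0 c ∧ FE b l K (F.size + 1) Q D ∧ D.size < F.size ∧
        F.size + 1 ≤ (2 * b) ^ (l + 2) * (D.size + 1) := by
  have h2b : 1 ≤ 2 * b := by omega
  cases hF : F.hv with
  | none =>
    obtain rfl := hv_none.1 hF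
    have h6 : 1 ≤ (2 * b) ^ (l + 3) := Nat.one_le_pow _ _ (by omega)
    simp only [Fd.size] at hs
    omega
  | some p =>
    obtain ⟨d, c⟩ := p
    cases d with
    | false =>
      right
      right
      left
      have h1 : (2 * b) ^ (l + 2) ≤ F.size := (Nat.pow_le_pow_right h2b (by omega)).trans hs
      obtain ⟨D, h3, h4, h5, h6⟩ := turn_of hb l 0 (by omega) h hF h1
      refine ⟨D, h3, h4, h5, h6.trans (Nat.mul_le_mul_right _ (Nat.pow_le_pow_right h2b (by omega)))⟩
    | true =>
      rcases h.heavy hF with h1 | h1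
      swap
      · exact Or.inl ⟨c, rfl, h1⟩
      right
      have h3 : F.size + 1 ≤ 2 * b * (c.size + 1) := step_size hb hF h.1
      have h4 : (2 * b) ^ (l + 2) ≤ c.size := big_child hb hF h.1 hs
      have h5 : c.size < F.size := (hv_size hF h.1).2
      cases hc : c.hv with
      | none =>
        obtain rfl := hv_none.1 hc
        have h6 : 1 ≤ (2 * b) ^ (l + 2) := Nat.one_le_pow _ _ (by omega)
        simp only [Fd.size] at h4
        omega
      | some q =>
        obtain ⟨d', c'⟩ := q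
        cases d' with
        | true =>
          exact Or.inl ⟨c, c', rfl, hc, h1, FE.mono (M := c.size + 1) (h1.heavy hc) (by omega)⟩
        | false =>
          right
          right
          obtain ⟨D, h6, h7, h8, h9⟩ := turn_of hb l 0 (by omega) h1 hc h4
          refine ⟨c, D, rfl, h6, h1, h7.mono (by omega), h8.trans h5, ?_⟩
          calc F.size + 1 ≤ 2 * b * (c.size + 1) := h3
            _ ≤ 2 * b * ((2 * b) ^ (l + 1) * (D.size + 1)) := Nat.mul_le_mul_left _ h9
            _ = (2 * b) ^ (l + 2) * (D.size + 1) := by ring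

end AEY
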