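import Pool.Agent.AEY.StmtY
import Pool.Agent.AEY.PredY
import Pool.Agent.AEJ.BlCod

/-!
# Main lines followed by a balanced path: codes
-/

set_option autoImplicit false

namespace AEY

open Finset Relation AE15 AED AEB AET AELT AEJ LTT AEK
open scoped Classical

section glue

variable {τ : Type*} [Fintype τ] {E P : τ → τ → Prop}

/-- the in-closure of `w` inside the tree below `w` (`P`: the parent relation) -/
noncomputable def inY (E P : τ → τ → Prop) (w : τ) : Finset τ := AE32.desc (fun a c => P a c ∧ E c a) w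

theorem mem_inY {w a : τ} : a ∈ inY E P w ↔ ReflTransGen (fun x y => E x y ∧ P y x) a w := by
  unfold inY
  rw [AE32.mem_desc, ← Relation.reflTransGen_swap]
  constructor
  · intro h
    exact ReflTransGen.mono (fun a b hab => ⟨hab.2, hab.1⟩) _ _ h
  · intro h
    exact ReflTransGen.mono (fun a b hab => ⟨hab.2, hab.1⟩) _ _ h

theorem blk_inY {h : τ → ℕ} (hE : ∀ a b, P a b → h a < h b) (hin : ∀ a b c, P a c → P b c → a = b)
    (hP : ∀ a c, P a c → E a c ∨ E c a) (hanti : ∀ a c, E a c → ¬ E c a) {v : τ} {c : Fd} (hc : Cod E P v c) :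
    blk c + 1 = (inY E P v).card := by
  rw [blk_eq_rch, rch_cod hE hin false _ v c rfl hc, inY]
  have h1 : (fun a c => P a c ∧ decide (E a c) = false) = fun a c => P a c ∧ E c a := by
    funext a c
    apply propext
    constructor
    · rintro ⟨h1, h2⟩
      exact ⟨h1, (hP a c h1).resolve_left (of_decide_eq_false h2)⟩
    · rintro ⟨h1, h2⟩
      exact ⟨h1, decide_eq_false (hanti _ _ h2)⟩
  rw [h1]

/-- the forest with the children forests `g c` of the vertices `c` of the list -/
noncomputable def mkY (E : τ → τ → Prop) (v : τ) (g : τ → Fd) : List τ → Fd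
  | [] => .nil
  | c :: l => .node (decide (E v c)) (g c) (mkY E v g l)

theorem mkY_trees (v : τ) (g : τ → Fd) (l : List τ) :
    (mkY E v g l).trees = l.map (fun c => (decide (E v c), g c)) := by
  induction l with
  | nil => rfl
  | cons c l ih => simp [mkY, Fd.trees, ih]

theorem codL_mkY (v : τ) (g : τ → Fd) (l : List τ) (h : ∀ c ∈ l, Cod E P c (g c)) : CodL E P v l (mkY E v g l) := by
  induction l with
  | nil => trivial
  | cons c l ih =>
    obtain ⟨l', h1, h2, h3⟩ := h c List.mem_cons_self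
    exact ⟨rfl, ⟨l', h1, h2, h3⟩, ih fun d hd => h d (List.mem_cons_of_mem _ hd)⟩

/-- a directed walk with `j` arcs starts at `v` and goes towards the root -/
def WkY (E P : τ → τ → Prop) (j : ℕ) (v : τ) : Prop :=
  ∃ f : ℕ → τ, f 0 = v ∧ ∀ i < j, E (f i) (f (i + 1)) ∧ P (f (i + 1)) (f i)

theorem wkY_zero (v : τ) : WkY E P 0 v := ⟨fun _ => v, rfl, fun i hi => by omega⟩

theorem wkY_succ {j : ℕ} {v w : τ} (h : WkY E P j v) (hw : E w v) (hP : P v w) : WkY E P (j + 1) w := by
  obtain ⟨f, h1, h2⟩ := h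
  refine ⟨fun i => match i with
    | 0 => w
    | i + 1 => f i, rfl, ?_⟩
  intro i hi
  cases i with
  | zero =>
    show E w (f 0) ∧ P (f 0) w
    rw [h1]
    exact ⟨hw, hP⟩
  | succ i => exact h2 i (by omega)

/-- `v` is not behind a light arc -/
def NLY (E P : τ → τ → Prop) (K : ℕ) (hm : τ → τ) (v : τ) : Prop :=
  ∀ u w, P u w → E u w → w ≠ hm u → K * (inY E P w).card ≤ (AE32.desc P u).card → v ∉ AE32.desc P w

theorem wkY_le {l K : ℕ} {hm : τ → τ} {v₀ : τ}
    (h7 : ∀ f : ℕ → τ, (∀ i ≤ l, E (f i) (f (i + 1)) ∧ P (f (i + 1)) (f i)) → f 0 ∉ AE32.desc P v₀ →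
      ¬ NLY E P K hm (f 0)) {j : ℕ} {v : τ} (h : WkY E P j v) (hv : NLY E P K hm v) (hv₀ : v ∉ AE32.desc P v₀) :
    j ≤ l := by
  obtain ⟨f, h1, h2⟩ := h
  by_contra hj
  push Not at hj
  exact h7 f (fun i hi => h2 i (by omega)) (h1 ▸ hv₀) (h1 ▸ hv)

theorem mkY_inL_tail {L K S j : ℕ} (v : τ) (g : τ → Fd) (l : List τ)
    (h : ∀ c ∈ l, (E v c → K * (blk (g c) + 1) ≤ S ∨ InL L K true ((g c).size + 1) 0 (g c)) ∧
      (¬ E v c → j + 1 ≤ L ∧ InL L K true ((g c).size + 1) (j + 1) (g c))) : InL L K false S j (mkY E v g l) := by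
  induction l with
  | nil => trivial
  | cons c l ih =>
    refine ⟨?_, ih fun d hd => h d (List.mem_cons_of_mem _ hd), by simp⟩
    obtain ⟨h1, h2⟩ := h c List.mem_cons_self
    by_cases he : E v c
    · simp only [he, decide_true, if_true, true_and]
      exact h1 he
    · simp only [he, decide_false, Bool.false_eq_true, if_false]
      exact h2 he

theorem mkY_inL_head {L K S j : ℕ} (v : τ) (g : τ → Fd) (m : τ) (l : List τ)
    (hm : (E v m → InL L K true ((g m).size + 1) 0 (g m)) ∧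
      (¬ E v m → j + 1 ≤ L ∧ InL L K true ((g m).size + 1) (j + 1) (g m)))
    (hs : ∀ c ∈ l, (g c).size ≤ (g m).size)
    (h : ∀ c ∈ l, (E v c → K * (blk (g c) + 1) ≤ S ∨ InL L K true ((g c).size + 1) 0 (g c)) ∧
      (¬ E v c → j + 1 ≤ L ∧ InL L K true ((g c).size + 1) (j + 1) (g c))) :
    InL L K true S j (mkY E v g (m :: l)) := by
  refine ⟨?_, mkY_inL_tail v g l h, ?_⟩
  · by_cases he : E v m
    · simp only [he, decide_true, if_true]
      exact Or.inr (hm.1 he)
    · simp only [he, decide_false, Bool.false_eq_true, if_false]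
      exact hm.2 he
  · intro _ q hq
    rw [mkY_trees, List.mem_map] at hq
    obtain ⟨c, hc, rfl⟩ := hq
    exact hs c hc

theorem mkY_inX_head {L K S j : ℕ} {Q : Fd → Prop} (v : τ) (g : τ → Fd) (m : τ) (l : List τ)
    (hm : (E v m → (Q (g m) ∧ K * (blk (g m) + 1) ≤ S) ∨ InX L K Q ((g m).size + 1) 0 (g m)) ∧
      (¬ E v m → j + 1 ≤ L ∧ InX L K Q ((g m).size + 1) (j + 1) (g m)))
    (hs : ∀ c ∈ l, (g c).size ≤ (g m).size)
    (h : ∀ c ∈ l, (E v c → K * (blk (g c) + 1) ≤ S ∨ InL L K true ((g c).size + 1) 0 (g c)) ∧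
      (¬ E v c → j + 1 ≤ L ∧ InL L K true ((g c).size + 1) (j + 1) (g c))) :
    InX L K Q S j (mkY E v g (m :: l)) := by
  refine ⟨?_, mkY_inL_tail v g l h, ?_⟩
  · by_cases he : E v m
    · simp only [he, decide_true, if_true]
      exact hm.1 he
    · simp only [he, decide_false, Bool.false_eq_true, if_false]
      exact hm.2 he
  · intro q hq
    rw [mkY_trees, List.mem_map] at hq
    obtain ⟨c, hc, rfl⟩ := hq
    exact hs c hc

theorem codes_y {h : τ → ℕ} (hE : ∀ a b, P a b → h a < h b) (hin : ∀ a b c, P a c → P b c → a = b)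
    (hP : ∀ a c, P a c → E a c ∨ E c a) (hanti : ∀ a c, E a c → ¬ E c a) {L K : ℕ} {Q : Fd → Prop} (hm : τ → τ)
    (hmain : ∀ u w, P u w → P u (hm u) ∧ (AE32.desc P w).card ≤ (AE32.desc P (hm u)).card) {v₀ : τ}
    (h7 : ∀ f : ℕ → τ, (∀ i ≤ L, E (f i) (f (i + 1)) ∧ P (f (i + 1)) (f i)) → f 0 ∉ AE32.desc P v₀ →
      ¬ NLY E P K hm (f 0))
    (hex : ∀ u, P u v₀ → E u v₀ ∧ K * (inY E P v₀).card ≤ (AE32.desc P u).card)
    (hQ : ∀ c, Cod E P v₀ c → Q c)
    (hline : ∀ u, v₀ ∈ AE32.desc P u → u ≠ v₀ → v₀ ∈ AE32.desc P (hm u)) (n : ℕ) :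
    ∀ v, (AE32.desc P v).card = n → ∃ c, Cod E P v c ∧ ∀ j, WkY E P j v → NLY E P K hm v → v ∉ AE32.desc P v₀ →
      (v₀ ∉ AE32.desc P v → InL L K true (c.size + 1) j c) ∧ (v₀ ∈ AE32.desc P v → InX L K Q (c.size + 1) j c) := by
  induction n using Nat.strong_induction_on with
  | _ n ih =>
    intro v hv
    obtain ⟨ch, hch⟩ : ∃ ch : Finset τ, ch = univ.filter (fun w => P v w) := ⟨_, rfl⟩
    have hmemch : ∀ c, c ∈ ch ↔ P v c := by
      intro c
      rw [hch, mem_filter]
      simp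
    have hlt : ∀ c, P v c → (AE32.desc P c).card < n := by
      intro c hc
      rw [← hv]
      refine card_lt_card ⟨AE32.desc_subset hc, fun hcon => ?_⟩
      exact AE32.notMem_desc hE hc (hcon (AE32.self_mem_desc v))
    -- the codes of the children
    have hex' : ∀ c, ∃ G, P v c → Cod E P c G ∧ ∀ j, WkY E P j c → NLY E P K hm c → c ∉ AE32.desc P v₀ →
        (v₀ ∉ AE32.desc P c → InL L K true (G.size + 1) j G) ∧ (v₀ ∈ AE32.desc P c → InX L K Q (G.size + 1) j G) := by
      intro c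
      by_cases hc : P v c
      · obtain ⟨G, hG⟩ := ih _ (hlt c hc) c rfl
        exact ⟨G, fun _ => hG⟩
      · exact ⟨.nil, fun h => absurd h hc⟩
    choose g hg using hex'
    by_cases hne : ∃ w, P v w
    swap
    · refine ⟨.nil, ⟨[], List.nodup_nil, ?_, trivial⟩, fun j _ _ _ => ⟨fun _ => trivial, fun _ => trivial⟩⟩
      intro c
      constructor
      · intro h; simp at h
      · intro h; exact absurd ⟨c, h⟩ hne
    obtain ⟨w₀, hw₀⟩ := hne
    have hmv : P v (hm v) := (hmain v w₀ hw₀).1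
    obtain ⟨l', hl'⟩ : ∃ l', l' = (ch.erase (hm v)).toList := ⟨_, rfl⟩
    have hl1 : (hm v :: l').Nodup := by
      rw [List.nodup_cons, hl']
      exact ⟨by simp, Finset.nodup_toList _⟩
    have hl2 : ∀ c, c ∈ hm v :: l' ↔ P v c := by
      intro c
      rw [List.mem_cons, hl', Finset.mem_toList, mem_erase, hmemch]
      constructor
      · rintro (rfl | h2)
        · exact hmv
        · exact h2.2
      · intro h2
        by_cases h3 : c = hm v
        · exact Or.inl h3
        · exact Or.inr ⟨h3, h2⟩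
    have hl3 : ∀ c ∈ l', P v c ∧ c ≠ hm v := by
      intro c hc
      rw [hl', Finset.mem_toList, mem_erase, hmemch] at hc
      exact ⟨hc.2, hc.1⟩
    have hcod : Cod E P v (mkY E v g (hm v :: l')) :=
      ⟨_, hl1, hl2, codL_mkY v g _ fun c hc => (hg c ((hl2 c).1 hc)).1⟩
    refine ⟨_, hcod, ?_⟩
    intro j hw hNL hv₀
    have hsize := cod_size hE hin hP hcod
    have hsz : ∀ c ∈ l', (g c).size ≤ (g (hm v)).size := by
      intro c hc
      have h4 := (hmain v c (hl3 c hc).1).2
      have h5 := cod_size hE hin hP (hg c (hl3 c hc).1).1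
      have h6 := cod_size hE hin hP (hg (hm v) hmv).1
      omega
    -- the children which are not behind a light arc
    have hNLc : ∀ c, P v c → (E v c → c ≠ hm v → ¬ K * (inY E P c).card ≤ (AE32.desc P v).card) →
        NLY E P K hm c := by
      intro c hc hcl u w huw hE' hwm hKw hcw
      rcases (AE32.mem_desc.1 hcw).cases_tail with h1 | ⟨e, h1, h2⟩
      · subst h1
        obtain rfl := hin _ _ _ huw hc
        exact hcl hE' hwm hKw
      · obtain rfl := hin _ _ _ h2 hc
        exact hNL u w huw hE' hwm hKw (AE32.mem_desc.2 h1)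
    have hcv₀ : ∀ c, P v c → c ≠ v₀ → c ∉ AE32.desc P v₀ := by
      intro c hc hne hcw
      rcases (AE32.mem_desc.1 hcw).cases_tail with h1 | ⟨e, h1, h2⟩
      · exact hne h1
      · obtain rfl := hin _ _ _ h2 hc
        exact hv₀ (AE32.mem_desc.2 h1)
    have hany : ∀ c, P v c → v₀ ∉ AE32.desc P c → (E v c → (c = hm v → InL L K true ((g c).size + 1) 0 (g c)) ∧
        (K * (blk (g c) + 1) ≤ (mkY E v g (hm v :: l')).size + 1 ∨ InL L K true ((g c).size + 1) 0 (g c))) ∧
        (¬ E v c → j + 1 ≤ L ∧ InL L K true ((g c).size + 1) (j + 1) (g c)) := by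
      intro c hc hcn
      obtain ⟨h1, h2⟩ := hg c hc
      have hne : c ≠ v₀ := by
        rintro rfl
        exact hcn (AE32.self_mem_desc c)
      have hc0 := hcv₀ c hc hne
      refine ⟨fun he => ⟨fun hcm => ?_, ?_⟩, fun he => ?_⟩
      · exact (h2 0 (wkY_zero c) (hNLc c hc fun _ h => absurd hcm h) hc0).1 hcn
      · by_cases hlight : K * (inY E P c).card ≤ (AE32.desc P v).card
        · left
          rw [blk_inY hE hin hP hanti h1, hsize]
          exact hlight
        · right
          exact (h2 0 (wkY_zero c) (hNLc c hc fun _ _ => hlight) hc0).1 hcn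
      · have h0 : E c v := (hP _ _ hc).resolve_left he
        have h5 : WkY E P (j + 1) c := wkY_succ hw h0 hc
        have h6 := hNLc c hc fun h => absurd h he
        exact ⟨wkY_le h7 h5 h6 hc0, (h2 (j + 1) h5 h6 hc0).1 hcn⟩
    constructor
    · intro hvn
      have hcn : ∀ c, P v c → v₀ ∉ AE32.desc P c := fun c hc h => hvn (AE32.desc_subset hc h)
      refine mkY_inL_head v g (hm v) l' ⟨fun he => ((hany _ hmv (hcn _ hmv)).1 he).1 rfl,
        (hany _ hmv (hcn _ hmv)).2⟩ hsz ?_
      intro c hc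
      have hcv := (hl3 c hc).1
      exact ⟨fun he => ((hany c hcv (hcn c hcv)).1 he).2, (hany c hcv (hcn c hcv)).2⟩
    · intro hvi
      have hvne : v ≠ v₀ := by
        rintro rfl
        exact hv₀ (AE32.self_mem_desc v)
      have hmi := hline v hvi hvne
      have hcn : ∀ c, P v c → c ≠ hm v → v₀ ∉ AE32.desc P c := fun c hc hne h =>
        disjoint_left.1 (AE32.desc_disjoint hE hin hc hmv hne) h hmi
      refine mkY_inX_head v g (hm v) l' ?_ hsz ?_
      · obtain ⟨h1, h2⟩ := hg (hm v) hmv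
        by_cases hmv₀ : hm v = v₀
        · have h3 := hex v (hmv₀ ▸ hmv)
          refine ⟨fun _ => Or.inl ⟨hQ _ (hmv₀ ▸ h1), ?_⟩, fun he => absurd (by rw [hmv₀]; exact h3.1) he⟩
          rw [blk_inY hE hin hP hanti h1, hsize, hmv₀]
          exact h3.2
        · have hc0 := hcv₀ _ hmv hmv₀
          refine ⟨fun he => Or.inr ?_, fun he => ?_⟩
          · exact (h2 0 (wkY_zero _) (hNLc _ hmv fun _ h => absurd rfl h) hc0).2 hmi
          · have h0 : E (hm v) v := (hP _ _ hmv).resolve_left he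
            have h5 : WkY E P (j + 1) (hm v) := wkY_succ hw h0 hmv
            have h6 := hNLc _ hmv fun h => absurd h he
            exact ⟨wkY_le h7 h5 h6 hc0, (h2 (j + 1) h5 h6 hc0).2 hmi⟩
      · intro c hc
        obtain ⟨hcv, hcne⟩ := hl3 c hc
        exact ⟨fun he => ((hany c hcv (hcn c hcv hcne)).1 he).2, (hany c hcv (hcn c hcv hcne)).2⟩

end glue

end AEY
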