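import Pool.Agent.AET.GlueLPM

/-!
# Main lines followed by a balanced path: the statement
-/

set_option autoImplicit false

namespace AEY

open Relation

/-- the branch at `v` of the tree `G` with root `r` -/
def Br {τ : Type*} (G : SimpleGraph τ) (r v : τ) : Set τ := {x | G.dist r x = G.dist r v + G.dist v x}

/-- the vertices from which a directed path towards the root leads to `w` -/
def Ic {τ : Type*} (E : τ → τ → Prop) (G : SimpleGraph τ) (r w : τ) : Set τ :=
  {x | ReflTransGen (fun a b => E a b ∧ G.dist r a = G.dist r b + 1) x w}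

/-- the vertices of the branch at `v` which are not joined to `v` by directed paths -/
def Nc {τ : Type*} (E : τ → τ → Prop) (G : SimpleGraph τ) (r v : τ) : Set τ :=
  {x | x ∈ Br G r v ∧ ¬ ReflTransGen E v x ∧ ¬ ReflTransGen E x v}

/-- The path `p 0 = r, …, p m` goes away from `r`; up to `p t` it follows the main children `h`; from `p t` on it is
balanced at every scale; the arc to `p t` is an exit; long runs towards `r` which start outside of the branch at `p t`
start behind a light arc. -/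
def LineBal {τ : Type*} (l K K₁ : ℕ) (E : τ → τ → Prop) (G : SimpleGraph τ) (r : τ) (h : τ → τ) : Prop :=
  ∃ (p : ℕ → τ) (t m : ℕ), t ≤ m ∧ p 0 = r ∧
    (∀ i < m, G.Adj (p i) (p (i + 1)) ∧ G.dist r (p (i + 1)) = G.dist r (p i) + 1) ∧
    (∀ i < t, p (i + 1) = h (p i)) ∧
    (∀ i, t ≤ i → i ≤ m → K₁ < (Br G r (p i)).ncard → ∃ j, i < j ∧ j ≤ m ∧
      (Br G r (p i)).ncard ≤ K₁ * (Br G r (p j)).ncard ∧ (Br G r (p j)).ncard ≤ K₁ * (Nc E G r (p j)).ncard) ∧
    (t = 0 ∨ (Br G r (p t)).ncard ≤ K₁ ∨ (E (p (t - 1)) (p t) ∧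
      K * (Ic E G r (p t)).ncard ≤ (Br G r (p (t - 1))).ncard ∧
      (Br G r (p t)).ncard ≤ K₁ * (Nc E G r (p t)).ncard)) ∧
    ∀ q : ℕ → τ, (∀ i ≤ l, E (q i) (q (i + 1)) ∧ G.dist r (q i) = G.dist r (q (i + 1)) + 1) →
      q 0 ∈ Br G r (p t) ∨ ∃ u w, E u w ∧ G.dist r w = G.dist r u + 1 ∧ w ≠ h u ∧
        K * (Ic E G r w).ncard ≤ (Br G r u).ncard ∧ q 0 ∈ Br G r w

/-- the final statement -/
def FinalSt : Prop := ∀ Δ l K₁ : ℕ, ∃ K C : ℕ, ∀ k n : ℕ, k + C ≤ n → ∀ R : Fin n → Fin n → Prop,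
    (∀ a, ¬ R a a) → (∀ a b, a ≠ b → R a b ∨ R b a) → (∀ a b, R a b → ¬ R b a) →
    ∀ E : Fin (k + 1) → Fin (k + 1) → Prop,
      (∀ a b, E a b → ¬ E b a) →
      (SimpleGraph.fromRel E).IsTree →
      (∀ v, ((SimpleGraph.fromRel E).neighborSet v).ncard ≤ Δ) →
      ∀ (r : Fin (k + 1)) (h : Fin (k + 1) → Fin (k + 1)), AET.MainChild (SimpleGraph.fromRel E) r h →
      LineBal l K K₁ E (SimpleGraph.fromRel E) r h ∨ LineBal l K K₁ (fun a b => E b a) (SimpleGraph.fromRel E) r h →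
      ∃ f : Fin (k + 1) → Fin n, Function.Injective f ∧ ∀ a b, E a b → R (f a) (f b)

end AEY
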