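import Pool.Agent.AET.AbsorbL
import Pool.Agent.AEY.PredY

/-!
# Main lines which may end in an exit tree: absorption

Only the absorbed in-tree has to satisfy the rule; for the forest itself it is enough that the trees placed aside are
outward bounded.
-/

set_option autoImplicit false

namespace AEY

open Finset AE15 AED AEB AET
open scoped Classical

variable {V : Type*} {R : V → V → Prop}

/-- absorption at `v`: one big in-tree is truncated on `w₂`, the other in-closures are on `w`; everything else pending -/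
theorem pe_absorbY (hT : AE32.Tour R) {b l K M j a A0 : ℕ} (hb : 1 ≤ b) (hKa : K * a ≤ M) {F t : Fd}
    (ht0 : FOL b l K (j + 1) t) (hj : j + 1 ≤ l) (hQ : OutB (Qi K b M) F) (hM : F.size + 1 ≤ M) (ha : ab b l ≤ a)
    (ht : (false, t) ∈ F.trees) (hA : (2 * b) ^ A0 ≤ t.size + 1) (v : V) (w w₂ : List V) (hw : w.Pairwise R)
    (hw₂ : w₂.Pairwise R) (hv : ∀ z ∈ w, R z v) (hv₂ : ∀ z ∈ w₂, R z v) (hd : ∀ z ∈ w, z ∉ w₂)
    (hl : blk F ≤ w.length) (hl₂ : A0 + a ≤ w₂.length) :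
    ∃ Z L, PE R F v Z L ∧ Z ⊆ w.toFinset ∪ w₂.toFinset ∧ A0 ≤ (Z ∩ w₂.toFinset).card ∧
      (∀ c, (true, c) ∈ F.trees → (v, c) ∈ L) ∧ ∀ q ∈ L, Qi K b M q.2 := by
  obtain ⟨x, A, L₁, hx, hxA, hAw, hP, hAc, hq₁⟩ := pe_trunc hT hb hKa ht0 (by
    have := size_lt_of_mem ht
    simp only at this
    omega) hj ha hA w₂ hw₂ hl₂
  have hperm : F.trees.Perm ((false, t) :: F.trees.erase (false, t)) := List.perm_cons_erase ht
  have hsum : ((F.trees.erase (false, t)).map (fun p => if p.1 then 0 else blk p.2 + 1)).sum ≤ w.length := by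
    rw [blk_eq, (hperm.map _).sum_eq] at hl
    simp only [List.map_cons, List.sum_cons] at hl
    omega
  obtain ⟨Z₂, L₂, hP₂, hZ₂, hL₂, hq₂⟩ := pel_block hT v (F.trees.erase (false, t)) (hQ.perm hperm).2 w hw hv hsum
  have hdis : Disjoint (insert x A) Z₂ := by
    rw [disjoint_left]
    intro y hy hy'
    have h3 := hZ₂ hy'
    rw [List.mem_toFinset] at h3
    refine hd y h3 ?_
    rcases mem_insert.1 hy with h | h
    · rw [h]; exact hx
    · have := hAw h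
      rwa [List.mem_toFinset] at this
  have hPEL : PEL R v ((false, t) :: F.trees.erase (false, t)) (insert x A ∪ Z₂) (L₁ ++ L₂) :=
    ⟨insert x A, Z₂, L₁, L₂, hdis, rfl, rfl, Or.inr ⟨x, A, by simpa [Adj] using hv₂ x hx, hxA, rfl, hP⟩, hP₂⟩
  obtain ⟨L, hLp, hPL⟩ := PEL.perm hperm.symm hPEL
  have hxA2 : insert x A ⊆ w₂.toFinset := by
    rw [insert_subset_iff, List.mem_toFinset]
    exact ⟨hx, hAw⟩
  refine ⟨insert x A ∪ Z₂, L, (pe_iff F v _ _).2 hPL, ?_, ?_, ?_,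
    fun q hq' => (List.mem_append.1 (hLp.subset hq')).elim (hq₁ q) (hq₂ q)⟩
  · intro y hy
    rw [mem_union] at hy ⊢
    rcases hy with h | h
    · exact Or.inr (hxA2 h)
    · exact Or.inl (hZ₂ h)
  · have h3 : insert x A ⊆ (insert x A ∪ Z₂) ∩ w₂.toFinset := subset_inter subset_union_left hxA2
    have h4 := card_le_card h3
    rw [card_insert_of_notMem hxA] at h4
    omega
  · intro c hc
    have h3 : (true, c) ∈ F.trees.erase (false, t) := by
      have := hperm.mem_iff.1 hc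
      rcases List.mem_cons.1 this with h | h
      · simp at h
      · exact h
    exact hLp.mem_iff.2 (List.mem_append_right _ (hL₂ c h3))

/-- absorption at `v`, with the heavy out-child placed at `v₁` -/
theorem pe_absorb_heavyY (hT : AE32.Tour R) {b l K M j a A0 : ℕ} (hb : 1 ≤ b) (hKa : K * a ≤ M) {F t c : Fd}
    (ht0 : FOL b l K (j + 1) t) (hj : j + 1 ≤ l) (hQ : OutB (Qi K b M) F) (hM : F.size + 1 ≤ M) (ha : ab b l ≤ a)
    (ht : (false, t) ∈ F.trees) (hA : (2 * b) ^ A0 ≤ t.size + 1) (hc : F.hv = some (true, c)) (v v₁ : V)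
    (w w₂ : List V) (hw : w.Pairwise R) (hw₂ : w₂.Pairwise R) (hv : ∀ z ∈ w, R z v) (hv₂ : ∀ z ∈ w₂, R z v)
    (hd : ∀ z ∈ w, z ∉ w₂) (hl : blk F ≤ w.length) (hl₂ : A0 + a ≤ w₂.length) (hv₁ : R v v₁) {Z₁ : Finset V}
    {L₁ : List (V × Fd)} (hP : PE R c v₁ Z₁ L₁) (hQ₁ : ∀ q ∈ L₁, Qi K b M q.2) (h1 : v₁ ∉ Z₁) (h2 : ∀ z ∈ w, z ≠ v₁ ∧ z ∉ Z₁)
    (h3 : ∀ z ∈ w₂, z ≠ v₁ ∧ z ∉ Z₁) :
    ∃ Z L, PE R F v Z L ∧ Z ⊆ w.toFinset ∪ w₂.toFinset ∪ insert v₁ Z₁ ∧ insert v₁ Z₁ ⊆ Z ∧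
      A0 ≤ (Z ∩ w₂.toFinset).card ∧ (∀ p ∈ L₁, p ∈ L) ∧ ∀ q ∈ L, Qi K b M q.2 := by
  obtain ⟨x, A, L₀, hx, hxA, hAw, hP₀, hAc, hq₀⟩ := pe_trunc hT hb hKa ht0 (by
    have := size_lt_of_mem ht
    simp only at this
    omega) hj ha hA w₂ hw₂ hl₂
  obtain ⟨⟨ts, hts⟩, -⟩ := hv_some hc
  have hts' : (false, t) ∈ ts := by
    rcases List.mem_cons.1 (hts.mem_iff.1 ht) with h | h
    · simp at h
    · exact h
  have hperm : F.trees.Perm ((true, c) :: (false, t) :: ts.erase (false, t)) :=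
    hts.trans ((List.perm_cons_erase hts').cons _)
  have hsum : ((ts.erase (false, t)).map (fun p => if p.1 then 0 else blk p.2 + 1)).sum ≤ w.length := by
    rw [blk_eq, (hperm.map _).sum_eq] at hl
    simp only [List.map_cons, List.sum_cons] at hl
    omega
  obtain ⟨Z₂, L₂, hP₂, hZ₂, hL₂, hq₂⟩ := pel_block hT v (ts.erase (false, t))
    (fun p hp => (hQ.perm hperm).2 p (List.mem_cons_of_mem _ hp)) w hw hv hsum
  have hxA2 : ∀ y ∈ insert x A, y ∈ w₂ := by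
    intro y hy
    rcases mem_insert.1 hy with h | h
    · rw [h]; exact hx
    · have := hAw h
      rwa [List.mem_toFinset] at this
  have hZ₂' : ∀ y ∈ Z₂, y ∈ w := by
    intro y hy
    have := hZ₂ hy
    rwa [List.mem_toFinset] at this
  have hdis : Disjoint (insert x A) Z₂ := by
    rw [disjoint_left]
    intro y hy hy'
    exact hd y (hZ₂' y hy') (hxA2 y hy)
  have hdis1 : Disjoint (insert v₁ Z₁) (insert x A ∪ Z₂) := by
    rw [disjoint_left]
    intro y hy hy'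
    rcases mem_union.1 hy' with h | h
    · obtain ⟨e1, e2⟩ := h3 y (hxA2 y h)
      rcases mem_insert.1 hy with h' | h'
      · exact e1 h'
      · exact e2 h'
    · obtain ⟨e1, e2⟩ := h2 y (hZ₂' y h)
      rcases mem_insert.1 hy with h' | h'
      · exact e1 h'
      · exact e2 h'
  have hPEL0 : PEL R v ((false, t) :: ts.erase (false, t)) (insert x A ∪ Z₂) (L₀ ++ L₂) :=
    ⟨insert x A, Z₂, L₀, L₂, hdis, rfl, rfl, Or.inr ⟨x, A, by simpa [Adj] using hv₂ x hx, hxA, rfl, hP₀⟩, hP₂⟩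
  have hPEL : PEL R v ((true, c) :: (false, t) :: ts.erase (false, t)) (insert v₁ Z₁ ∪ (insert x A ∪ Z₂))
      (L₁ ++ (L₀ ++ L₂)) :=
    ⟨insert v₁ Z₁, insert x A ∪ Z₂, L₁, L₀ ++ L₂, hdis1, rfl, rfl, Or.inr ⟨v₁, Z₁, by simpa [Adj] using hv₁, h1, rfl, hP⟩,
      hPEL0⟩
  obtain ⟨L, hLp, hPL⟩ := PEL.perm hperm.symm hPEL
  refine ⟨insert v₁ Z₁ ∪ (insert x A ∪ Z₂), L, (pe_iff F v _ _).2 hPL, ?_, subset_union_left, ?_, ?_,
    fun q hq' => (List.mem_append.1 (hLp.subset hq')).elim (hQ₁ q)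
      (fun h => (List.mem_append.1 h).elim (hq₀ q) (hq₂ q))⟩
  · intro y hy
    simp only [mem_union, List.mem_toFinset]
    rcases mem_union.1 hy with h | h
    · exact Or.inr h
    · rcases mem_union.1 h with h | h
      · exact Or.inl (Or.inr (hxA2 y h))
      · exact Or.inl (Or.inl (hZ₂' y h))
  · have h4 : insert x A ⊆ (insert v₁ Z₁ ∪ (insert x A ∪ Z₂)) ∩ w₂.toFinset := by
      intro y hy
      rw [mem_inter, mem_union, mem_union, List.mem_toFinset]
      exact ⟨Or.inr (Or.inl hy), hxA2 y hy⟩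
    have h5 := card_le_card h4
    rw [card_insert_of_notMem hxA] at h5
    omega
  · intro p hp
    exact hLp.mem_iff.2 (List.mem_append_left _ hp)

end AEY
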