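import Pool.Agent.AEJ.Final0

/-!
# Balanced paths starting at any vertex
-/

namespace AEY

open Finset Relation AE15 AED AELT AEK AEJT LTT AEJ
open scoped Classical

variable {k : ℕ} {G : SimpleGraph (Fin (k + 1))} {r : Fin (k + 1)} {E : Fin (k + 1) → Fin (k + 1) → Prop}

/-- the window of a balanced vertex -/
theorem window_any (hG : G.IsTree) (hE : ∀ a b, E a b → ¬ E b a) (hEG : SimpleGraph.fromRel E = G) {K : ℕ}
    {v : Fin (k + 1)} (h : (AE32.desc (Par G r) v).card ≤
      K * {x | G.dist r v + G.dist v x = G.dist r x ∧ ¬ ReflTransGen E v x ∧ ¬ ReflTransGen E x v}.ncard) :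
    1 / ((K : ℝ) + 1) * ((code E (Par G r) v).size + 1) + dcl (code E (Par G r) v) + AEB.blk (code E (Par G r) v) ≤
      (code E (Par G r) v).size + 1 := by
  have hK0 : (0 : ℝ) ≤ K := Nat.cast_nonneg _
  have hsz := size_code (E := E) (r := r) hG v
  have hszR : ((code E (Par G r) v).size : ℝ) + 1 = (AE32.desc (Par G r) v).card := by exact_mod_cast hsz
  have e5 := window_code (r := r) hG hE hEG v
  obtain ⟨N, hN⟩ : ∃ N : ℕ,
    N = {x | G.dist r v + G.dist v x = G.dist r x ∧ ¬ ReflTransGen E v x ∧ ¬ ReflTransGen E x v}.ncard := ⟨_, rfl⟩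
  rw [← hN] at h e5
  have e7 : (dcl (code E (Par G r) v) : ℝ) + AEB.blk (code E (Par G r) v) + 1 + N ≤
      (AE32.desc (Par G r) v).card := by exact_mod_cast e5
  have e8 : 1 / ((K : ℝ) + 1) * ((AE32.desc (Par G r) v).card : ℝ) ≤ N := by
    rw [div_mul_eq_mul_div, one_mul, div_le_iff₀ (by positivity)]
    have e9 : ((AE32.desc (Par G r) v).card : ℝ) ≤ K * N := by exact_mod_cast h
    have e10 : (0 : ℝ) ≤ N := Nat.cast_nonneg _
    linarith
  rw [hszR]
  linarith

/-- a path away from the root which is balanced at every scale -/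
theorem bl_any (hG : G.IsTree) (hE : ∀ a b, E a b → ¬ E b a) (hEG : SimpleGraph.fromRel E = G) {K m : ℕ}
    {p : ℕ → Fin (k + 1)} (hp : ∀ i < m, Par G r (p i) (p (i + 1)))
    (hK : ∀ i ≤ m, K < (AE32.desc (Par G r) (p i)).card → ∃ j, i < j ∧ j ≤ m ∧
      (AE32.desc (Par G r) (p i)).card ≤ K * (AE32.desc (Par G r) (p j)).card ∧
      (AE32.desc (Par G r) (p j)).card ≤ K * {x | G.dist r (p j) + G.dist (p j) x = G.dist r x ∧
        ¬ ReflTransGen E (p j) x ∧ ¬ ReflTransGen E x (p j)}.ncard) :
    Bl (1 / ((K : ℝ) + 1)) K (code E (Par G r) (p 0)) := by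
  have hlt : ∀ a c, Par G r a c → G.dist r a < G.dist r c := fun _ _ h => h.lt
  have hreach : ∀ i j, i ≤ j → j ≤ m → ReflTransGen (Par G r) (p i) (p j) := by
    intro i j hij
    induction j, hij using Nat.le_induction with
    | base => intro _; exact ReflTransGen.refl
    | succ j hij ih => intro hj; exact (ih (by omega)).tail (hp j (by omega))
  have hmono : ∀ i j, i < j → j ≤ m → (AE32.desc (Par G r) (p j)).card < (AE32.desc (Par G r) (p i)).card := by
    intro i j hij
    induction j, hij using Nat.le_induction with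
    | base =>
      intro hj
      exact desc_card_lt (h := fun v => G.dist r v) hlt (hp i (by omega))
    | succ j hij ih =>
      intro hj
      exact lt_trans (desc_card_lt (h := fun v => G.dist r v) hlt (hp j (by omega))) (ih (by omega))
  have key : ∀ n i, i ≤ m → m - i = n → Bl (1 / ((K : ℝ) + 1)) K (code E (Par G r) (p i)) := by
    intro n
    induction n using Nat.strong_induction_on with
    | _ n ih =>
      intro i hi hn
      have hsz := size_code (E := E) (r := r) hG (p i)
      by_cases hs : K < (AE32.desc (Par G r) (p i)).card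
      · obtain ⟨j, e1, e2, e3, e4⟩ := hK i hi hs
        obtain ⟨d, l, hP⟩ := ptT_desc (E := E) (h := fun v => G.dist r v) hlt (hreach i j e1.le e2) true
        have hszj := size_code (E := E) (r := r) hG (p j)
        have hlt' := hmono i j e1 e2
        have hszR : ((code E (Par G r) (p i)).size : ℝ) + 1 = (AE32.desc (Par G r) (p i)).card := by exact_mod_cast hsz
        have hszjR : ((code E (Par G r) (p j)).size : ℝ) + 1 = (AE32.desc (Par G r) (p j)).card := by
          exact_mod_cast hszj
        have hK0 : (0 : ℝ) ≤ K := Nat.cast_nonneg _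
        refine Bl.step _ true (d, code E (Par G r) (p j)) l hP (by simp only; omega) ?_
          (window_any hG hE hEG e4) (ih (m - j) (by omega) j e2 rfl)
        simp only
        rw [hszR, hszjR, div_mul_eq_mul_div, one_mul, div_le_iff₀ (by positivity)]
        have e5 : ((AE32.desc (Par G r) (p i)).card : ℝ) ≤ K * (AE32.desc (Par G r) (p j)).card := by exact_mod_cast e3
        have e6 : (0 : ℝ) ≤ (AE32.desc (Par G r) (p j)).card := Nat.cast_nonneg _
        linarith
      · exact Bl.small _ (by omega)
  exact key m 0 (Nat.zero_le _) rfl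

end AEY
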