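import Pool.Agent.AEY.CodeY

/-!
# Main lines followed by a balanced path: from oriented trees to coded trees
-/

set_option autoImplicit false

namespace AEY

open Finset Relation AE15 AED AEB AET AELT AEJ LTT AEK
open scoped Classical

/-- Every oriented tree with a main line which leaves at `p t` into a balanced branch is coded by a tree of the class. -/
theorem glueY {k b l K K₁ : ℕ} {E : Fin (k + 1) → Fin (k + 1) → Prop} (h4 : ∀ a c, E a c → ¬ E c a)
    (h5 : (SimpleGraph.fromRel E).IsTree) (h6 : ∀ v, {w | E v w ∨ E w v}.ncard ≤ b) (r : Fin (k + 1))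
    (h : Fin (k + 1) → Fin (k + 1)) (hh : MainChild (SimpleGraph.fromRel E) r h) {p : ℕ → Fin (k + 1)} {t m : ℕ}
    (ht0 : 0 < t) (htm : t ≤ m) (hp0 : p 0 = r)
    (hp : ∀ i < m, (SimpleGraph.fromRel E).Adj (p i) (p (i + 1)) ∧
      (SimpleGraph.fromRel E).dist r (p (i + 1)) = (SimpleGraph.fromRel E).dist r (p i) + 1)
    (hpm : ∀ i < t, p (i + 1) = h (p i))
    (hbal : ∀ i, t ≤ i → i ≤ m → K₁ < (Br (SimpleGraph.fromRel E) r (p i)).ncard → ∃ j, i < j ∧ j ≤ m ∧
      (Br (SimpleGraph.fromRel E) r (p i)).ncard ≤ K₁ * (Br (SimpleGraph.fromRel E) r (p j)).ncard ∧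
      (Br (SimpleGraph.fromRel E) r (p j)).ncard ≤ K₁ * (Nc E (SimpleGraph.fromRel E) r (p j)).ncard)
    (hex1 : E (p (t - 1)) (p t))
    (hex2 : K * (Ic E (SimpleGraph.fromRel E) r (p t)).ncard ≤ (Br (SimpleGraph.fromRel E) r (p (t - 1))).ncard)
    (hex3 : (Br (SimpleGraph.fromRel E) r (p t)).ncard ≤ K₁ * (Nc E (SimpleGraph.fromRel E) r (p t)).ncard)
    (h7 : ∀ q : ℕ → Fin (k + 1), (∀ i ≤ l, E (q i) (q (i + 1)) ∧
      (SimpleGraph.fromRel E).dist r (q i) = (SimpleGraph.fromRel E).dist r (q (i + 1)) + 1) →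
      q 0 ∈ Br (SimpleGraph.fromRel E) r (p t) ∨ ∃ u w, E u w ∧
        (SimpleGraph.fromRel E).dist r w = (SimpleGraph.fromRel E).dist r u + 1 ∧ w ≠ h u ∧
        K * (Ic E (SimpleGraph.fromRel E) r w).ncard ≤ (Br (SimpleGraph.fromRel E) r u).ncard ∧
        q 0 ∈ Br (SimpleGraph.fromRel E) r w) :
    ∃ c : Fd, c.size = k ∧ FX b l K (fun c => Bl (1 / ((K₁ : ℝ) + 1)) K₁ c ∧
        1 / ((K₁ : ℝ) + 1) * (c.size + 1) + dcl c + AEB.blk c ≤ c.size + 1) 0 c ∧
      ∀ {V : Type} {R : V → V → Prop} {N : V → Prop} {X : Finset V}, In R c N X →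
        ∃ f : Fin (k + 1) → V, Function.Injective f ∧ (∀ a, f a ∈ X) ∧ N (f r) ∧ ∀ a c, E a c → R (f a) (f c) := by
  obtain ⟨G, hG⟩ : ∃ G, G = SimpleGraph.fromRel E := ⟨_, rfl⟩
  rw [← hG] at h5 hh hp hbal hex2 hex3 h7
  obtain ⟨P, hPdef⟩ : ∃ P : Fin (k + 1) → Fin (k + 1) → Prop, P = fun a c => G.Adj a c ∧ G.dist r c = G.dist r a + 1 :=
    ⟨_, rfl⟩
  have hPi : ∀ a c, P a c ↔ G.Adj a c ∧ G.dist r c = G.dist r a + 1 := fun a c => by rw [hPdef]
  have hE : ∀ a c, P a c → G.dist r a < G.dist r c := by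
    intro a c h
    rw [hPi] at h
    have := h.2
    omega
  have hin : ∀ a b c, P a c → P b c → a = b := by
    intro a b c h1 h2
    rw [hPi] at h1 h2
    exact parent_unique' h5 r h1.1 h2.1 h1.2 h2.2
  have hP : ∀ a c, P a c → E a c ∨ E c a := by
    intro a c h
    rw [hPi] at h
    have h1 := h.1
    rw [hG, SimpleGraph.fromRel_adj] at h1
    exact h1.2
  have hadj : ∀ a c, E a c → G.Adj a c := by
    intro a c hac
    rw [hG, SimpleGraph.fromRel_adj]
    refine ⟨?_, Or.inl hac⟩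
    rintro rfl
    exact h4 _ _ hac hac
  have hreach : ∀ u x, x ∈ AE32.desc P u ↔ x ∈ Br G r u := by
    intro u x
    rw [AE32.mem_desc, hPdef, Br, Set.mem_ofPred_eq]
    exact ⟨fun h => (dist_of_desc h5 r u h).symm, fun h => desc_of_dist h5 r u _ x rfl h.symm⟩
  have hD : ∀ u, (AE32.desc P u).card = (Br G r u).ncard := by
    intro u
    rw [← Set.ncard_coe_finset]
    congr 1
    ext x
    rw [mem_coe]
    exact hreach u x
  have hI : ∀ w, (inY E P w).card = (Ic E G r w).ncard := by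
    intro w
    rw [← Set.ncard_coe_finset]
    congr 1
    ext x
    rw [mem_coe, mem_inY, Ic, Set.mem_ofPred_eq]
    have hrel : (fun a b => E a b ∧ P b a) = fun a b => E a b ∧ G.dist r a = G.dist r b + 1 := by
      funext a b
      apply propext
      constructor
      · rintro ⟨h1, h2⟩
        exact ⟨h1, ((hPi _ _).1 h2).2⟩
      · rintro ⟨h1, h2⟩
        exact ⟨h1, (hPi _ _).2 ⟨(hadj _ _ h1).symm, h2⟩⟩
    rw [hrel]
  have hN : ∀ u, ((AE32.desc P u).filter (fun x => ¬ ReflTransGen E u x ∧ ¬ ReflTransGen E x u)).card =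
      (Nc E G r u).ncard := by
    intro u
    rw [← Set.ncard_coe_finset]
    congr 1
    ext x
    rw [mem_coe, mem_filter, hreach, Nc, Set.mem_ofPred_eq]
  have hpP : ∀ i < m, P (p i) (p (i + 1)) := fun i hi => (hPi _ _).2 (hp i hi)
  have hdesc : ∀ i j, i ≤ j → j ≤ m → p j ∈ AE32.desc P (p i) := by
    intro i j hij
    induction j, hij using Nat.le_induction with
    | base => intro _; exact AE32.self_mem_desc _
    | succ j hij ih => intro hj; exact AE32.mem_desc.2 ((AE32.mem_desc.1 (ih (by omega))).tail (hpP j (by omega)))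
  -- the ancestors of `p t`
  have hanc : ∀ i ≤ m, ∀ u, p i ∈ AE32.desc P u → ∃ i' ≤ i, u = p i' := by
    intro i
    induction i with
    | zero =>
      intro _ u hu
      rcases (AE32.mem_desc.1 hu).cases_tail with h1 | ⟨e, h1, h2⟩
      · exact ⟨0, le_rfl, h1.symm⟩
      · rw [hp0] at h2
        have h3 := ((hPi _ _).1 h2).2
        rw [SimpleGraph.dist_self] at h3
        omega
    | succ i ih =>
      intro hi u hu
      rcases (AE32.mem_desc.1 hu).cases_tail with h1 | ⟨e, h1, h2⟩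
      · exact ⟨i + 1, le_rfl, h1.symm⟩
      · have h3 := hin _ _ _ h2 (hpP i (by omega))
        subst h3
        obtain ⟨i', h4, h5⟩ := ih (by omega) u (AE32.mem_desc.2 h1)
        exact ⟨i', by omega, h5⟩
  have ht1 : t - 1 + 1 = t := by omega
  have hpt : P (p (t - 1)) (p t) := by
    have := hpP (t - 1) (by omega)
    rwa [ht1] at this
  have hK0 : (0 : ℝ) ≤ K₁ := Nat.cast_nonneg _
  -- the exit tree
  have hQ : ∀ c, Cod E P (p t) c → Bl (1 / ((K₁ : ℝ) + 1)) K₁ c ∧
      1 / ((K₁ : ℝ) + 1) * (c.size + 1) + dcl c + AEB.blk c ≤ c.size + 1 := by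
    intro c hc
    constructor
    · refine bl_of_cod (h := fun v => G.dist r v) hE hin hP (p := fun i => p (t + i)) (m := m - t) (K := K₁) ?_ ?_ (m - t)
        0 c (Nat.zero_le _) rfl hc
      · intro i hi
        exact hpP (t + i) (by omega)
      · intro i hi hlt
        simp only [hD] at hlt
        obtain ⟨j, e1, e2, e3, e4⟩ := hbal (t + i) (by omega) (by omega) hlt
        refine ⟨j - t, by omega, by omega, ?_, ?_⟩
        · simp only [hD]
          rw [show t + (j - t) = j by omega]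
          exact e3
        · simp only [hN, hD]
          rw [show t + (j - t) = j by omega]
          exact e4
    · have e5 := window_cod (h := fun v => G.dist r v) hE hin hP hc
      have hsz := cod_size (h := fun v => G.dist r v) hE hin hP hc
      rw [hN] at e5
      rw [hD] at e5 hsz
      have e6 : ((c.size : ℝ) + 1) = (Br G r (p t)).ncard := by exact_mod_cast hsz
      have e7 : (dcl c : ℝ) + AEB.blk c + 1 + (Nc E G r (p t)).ncard ≤ (Br G r (p t)).ncard := by exact_mod_cast e5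
      have e8 : 1 / ((K₁ : ℝ) + 1) * ((Br G r (p t)).ncard : ℝ) ≤ (Nc E G r (p t)).ncard := by
        rw [div_mul_eq_mul_div, one_mul, div_le_iff₀ (by positivity)]
        have e9 : ((Br G r (p t)).ncard : ℝ) ≤ K₁ * (Nc E G r (p t)).ncard := by exact_mod_cast hex3
        have e10 : (0 : ℝ) ≤ (Nc E G r (p t)).ncard := Nat.cast_nonneg _
        linarith
      rw [e6]
      linarith
  obtain ⟨c, hc, hcX⟩ := codes_y (h := fun v => G.dist r v) hE hin hP h4 (L := l) (K := K)
    (Q := fun c => Bl (1 / ((K₁ : ℝ) + 1)) K₁ c ∧ 1 / ((K₁ : ℝ) + 1) * (c.size + 1) + dcl c + AEB.blk c ≤ c.size + 1) h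
    (fun u w huw => by
      have h1 := (hPi _ _).1 huw
      obtain ⟨g1, g2, g3⟩ := hh u w h1.1 h1.2
      refine ⟨(hPi _ _).2 ⟨g1, g2⟩, ?_⟩
      rw [hD, hD]
      exact g3) (v₀ := p t)
    (fun f hf hf0 hNL => by
      rcases h7 f (fun i hi => ⟨(hf i hi).1, ((hPi _ _).1 (hf i hi).2).2⟩) with g1 | ⟨u, w, g1, g2, g3, g4, g5⟩
      · exact hf0 ((hreach _ _).2 g1)
      · refine hNL u w ((hPi _ _).2 ⟨hadj _ _ g1, g2⟩) g1 g3 ?_ ((hreach _ _).2 g5)
        rw [hD, hI]
        exact g4)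
    (fun u hu => by
      have := hin _ _ _ hu hpt
      subst this
      refine ⟨hex1, ?_⟩
      rw [hI, hD]
      exact hex2) hQ
    (fun u hu hne => by
      obtain ⟨i, hi, rfl⟩ := hanc t htm u hu
      have hit : i < t := by
        rcases Nat.lt_or_ge i t with h1 | h1
        · exact h1
        · exact absurd (by rw [show i = t by omega]) hne
      rw [← hpm i hit]
      exact hdesc (i + 1) t (by omega) htm) _ r rfl
  have hvc := vc_of_cod (h := fun v => G.dist r v) hE hin hP h6 hc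
  have hroot : AE32.desc P r = univ := by
    rw [eq_univ_iff_forall]
    intro v
    rw [hreach, Br, Set.mem_ofPred_eq, SimpleGraph.dist_self, zero_add]
  have hsz := hvc.size
  rw [hroot, card_univ, Fintype.card_fin] at hsz
  have hrt : r ∉ AE32.desc P (p t) := by
    intro hr
    have g1 := AE32.rank_le (h := fun v => G.dist r v) hE (AE32.mem_desc.1 hr)
    have g2 := hE _ _ hpt
    simp only [SimpleGraph.dist_self] at g1
    omega
  have hX := (hcX 0 (wkY_zero r) (by
    intro u w huw _ _ _ hrw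
    have g1 := AE32.rank_le (h := fun v => G.dist r v) hE (AE32.mem_desc.1 hrw)
    have g2 := hE _ _ huw
    simp only [SimpleGraph.dist_self] at g1
    omega) hrt).2 (by rw [hroot]; exact mem_univ _)
  refine ⟨c, by omega, ⟨hvc.len, hvc.deg, hX⟩, ?_⟩
  rintro V R N X ⟨x, hx, A, hA, hxA, hN', hS⟩
  obtain ⟨f, p1, p2, p3, p4⟩ := hvc.emb hxA hS
  rw [hroot] at p2 p3 p4
  refine ⟨f, fun a b hab => p3 a (mem_univ _) b (mem_univ _) hab, fun a => ?_, by rw [p1]; exact hN', fun a c hac => ?_⟩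
  · have := p2 a (mem_univ _)
    rw [mem_insert] at this
    rcases this with h | h
    · rw [h]
      exact hx
    · exact hA h
  · rcases h5.dist_eq_dist_add_one_of_adj r (hadj _ _ hac) with h | h
    · have h1 := p4 c (mem_univ _) a ((hPi _ _).2 ⟨(hadj _ _ hac).symm, h⟩)
      have h2 : ¬ E c a := h4 _ _ hac
      simpa [Adj, h2] using h1
    · have h1 := p4 a (mem_univ _) c ((hPi _ _).2 ⟨hadj _ _ hac, h⟩)
      simpa [Adj, hac] using h1

end AEY
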