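import Pool.Agent.AEY.StepY
import Pool.Agent.AEJ.Closure0
import Pool.Agent.AEJ.Jump0

/-!
# Main lines with an exit: the main statement for forests
-/

set_option autoImplicit false

namespace AEY

open Finset AE15 AED AEB AEG AET AELT AEF
open scoped Classical

/-- **the main statement with `|T| + C` vertices** -/
theorem ee_allY (p : NP) (hp : p.OK) (hab : ab p.b p.l ≤ p.a) (hB2 : (2 * p.b) ^ p.A0 ≤ p.B) {D₀ : ℕ} (hD₀ : p.A ≤ D₀)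
    {ω c η η₁ κ₀ κ₁ κ γ₀ τ s σ₂ μ₂ : ℝ} (P : KB D₀ ω c η η₁ κ₀ κ₁ κ γ₀ τ s σ₂ μ₂) {γ ε₀ μ₀ : ℝ} {m₁ : ℕ} (hγ : 0 < γ)
    (hε₀ : 0 < ε₀) (hμ₀ : 0 < μ₀) (hL : LightH p.b κ η γ ε₀ μ₀ m₁) {W₀ : Fd → Prop} {θ : ℝ} (hθ : 0 < θ) (hθ1 : θ ≤ 1)
    (hηθ : 16 * η * p.A ≤ θ) (hwin : ∀ c : Fd, W₀ c → θ * (c.size + 1) + dcl c + blk c ≤ c.size + 1)
    (hcoa : ∀ {k e be : ℝ}, 0 < k → 0 < e → 0 < be → ∃ C0 : ℝ, ∀ C : ℝ, C0 ≤ C → ∀ c : Fd, c.len ≤ p.b → c.Deg p.b →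
      W₀ c → AEJ.Coarse k e be C c) : ∃ K C : ℕ,
    ∀ {V : Type} {R : V → V → Prop}, AE32.Tour R → ∀ F : Fd, FX p.b p.l K W₀ 0 F → EE R κ η s p 1 C F := by
  obtain ⟨K, n₀, C0, h⟩ := stepY p hp hab hB2 hD₀ P hγ hε₀ hμ₀ hL hθ hθ1 hηθ hwin hcoa
  refine ⟨K, n₀ + ⌈C0⌉₊, ?_⟩
  intro V R hT F
  have hCC : C0 ≤ ((n₀ + ⌈C0⌉₊ : ℕ) : ℝ) := by
    have h1 : C0 ≤ ⌈C0⌉₊ := Nat.le_ceil _
    push_cast
    have h2 : (0 : ℝ) ≤ n₀ := Nat.cast_nonneg _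
    linarith
  induction hs : F.size using Nat.strong_induction_on generalizing F with
  | _ n ih =>
    intro hF X N hn hcl
    refine h hT ((n₀ + ⌈C0⌉₊ : ℕ) : ℝ) hCC (Nat.cast_nonneg _) F hF
      (fun F' hF' hlt => ih F'.size (hs ▸ hlt) F' rfl hF') X N hn ?_ hcl
    have h1 : (0 : ℝ) ≤ F.size := Nat.cast_nonneg _
    have h2 : (n₀ : ℝ) ≤ ((n₀ + ⌈C0⌉₊ : ℕ) : ℝ) := by exact_mod_cast Nat.le_add_right _ _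
    have h3 : (n₀ : ℝ) ≤ X.card := by linarith
    exact_mod_cast h3

/-- **trees of the class, as forests** -/
theorem main_fx (b l M : ℕ) (hb : 1 ≤ b) {θ : ℝ} (hθ : 0 < θ) (hθ1 : θ ≤ 1) : ∃ K C : ℕ,
    ∀ {V : Type} {R : V → V → Prop}, AE32.Tour R → ∀ F : Fd,
      FX b l K (fun c => AEJ.Bl θ M c ∧ θ * (c.size + 1) + dcl c + AEB.blk c ≤ c.size + 1) 0 F → ∀ X : Finset V,
      F.size + 1 + C ≤ X.card → In R F (fun _ => True) X := by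
  obtain ⟨p, hp, hpb, hpl, hab, hB2⟩ := exists_npL b l hb
  subst hpb hpl
  have hA1 : 1 ≤ p.A := Nat.one_le_pow _ _ (by omega)
  have hc1 : 1 ≤ ⌈1 / θ⌉₊ := Nat.one_le_ceil_iff.2 (by positivity)
  obtain ⟨D₀, hD₀⟩ : ∃ D₀ : ℕ, D₀ = p.A * ⌈1 / θ⌉₊ := ⟨_, rfl⟩
  have hDA : p.A ≤ D₀ := by rw [hD₀]; exact Nat.le_mul_of_pos_right _ hc1
  have hD64 : 64 ≤ D₀ := hp.D₀.trans hDA
  obtain ⟨ω, c, η, η₁, κ₀, κ₁, κ, γ₀, τ, s, σ₂, μ, P⟩ := exists_KB hD64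
  obtain ⟨hω0, hω1, hc0, hc1', hη0, hη1, hη₁0, hη₁1, hκ₀0, hκ₁0, hκ₁1, hκ0, hκ1, hs0, hγ₀0, hτ0, hσ₂0, -, hκ₁η, hκs⟩ :=
    P.num
  have hcη : c * η ≤ 1 * η := mul_le_mul_of_nonneg_right (by linarith) hη0.le
  obtain ⟨γ, ε₀, μ₀, m₁, hγ, hε₀, hμ₀, hL⟩ := itX_one p.b hb (κ := κ) (η := η) hκ0 (by linarith) hη0 (by linarith)
  have hηθ : 16 * η * p.A ≤ θ := by
    have hD0 : (0 : ℝ) < D₀ := by exact_mod_cast (by omega : 0 < D₀)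
    have h1 : (p.A : ℝ) ≤ θ * D₀ := by
      have h2 : 1 / θ ≤ ⌈1 / θ⌉₊ := Nat.le_ceil _
      rw [div_le_iff₀ hθ] at h2
      rw [hD₀]
      push_cast
      have h3 : (p.A : ℝ) * 1 ≤ p.A * (⌈1 / θ⌉₊ * θ) := mul_le_mul_of_nonneg_left h2 (Nat.cast_nonneg _)
      linarith
    have h2 : η = 1 / (112 * D₀) := by
      rw [P.hη, P.hω]
      field_simp
      norm_num
    rw [h2]
    have h3 : 16 * (1 / (112 * (D₀ : ℝ))) * p.A = p.A / (7 * D₀) := by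
      field_simp
      norm_num
    rw [h3, div_le_iff₀ (by positivity)]
    have h4 : 0 ≤ θ * D₀ := by positivity
    linarith
  obtain ⟨K, C, h⟩ := ee_allY p hp hab hB2 hDA P hγ hε₀ hμ₀ hL
    (W₀ := fun c => AEJ.Bl θ M c ∧ θ * (c.size + 1) + dcl c + AEB.blk c ≤ c.size + 1) hθ hθ1 hηθ (fun c hc => hc.2) (by
      intro k e be hk he hbe
      obtain ⟨C0, hC0⟩ := AEJ.coarse_of_bl' hb (fun th h1 h2 => AEJ.jump0 p.b hb h1 h2) hθ hθ1 M hk he hbe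
      exact ⟨C0, fun C hC c hl hd hc => hC0 C hC c hl hd hc.1⟩)
  refine ⟨K, C + ⌈1 / κ₀⌉₊, fun {V R} hT F hF X hn => ?_⟩
  refine h hT F hF X _ ?_ (cl_true P hT p F X ?_ _ fun _ => trivial)
  · have h2 : (F.size : ℝ) + 1 + C ≤ X.card := by exact_mod_cast (by omega : F.size + 1 + C ≤ X.card)
    linarith
  · have h1 : 1 / κ₀ ≤ (⌈1 / κ₀⌉₊ : ℝ) := Nat.le_ceil _
    have h2 : ((⌈1 / κ₀⌉₊ : ℕ) : ℝ) ≤ X.card := by exact_mod_cast (by omega : ⌈1 / κ₀⌉₊ ≤ X.card)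
    have h3 : 1 / κ₀ ≤ X.card := h1.trans h2
    rw [div_le_iff₀ hκ₀0] at h3
    linarith

end AEY
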