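import Pool.Agent.AEY.StmtY
import Pool.Agent.AEY.MainY
import Pool.Agent.AEY.GlueY
import Pool.Agent.AET.MainL
import Pool.Agent.AET.GlueP
import Pool.Agent.AEJ.Final0
import Pool.Agent.AEJ.Jump0

/-!
# Main lines followed by a balanced path: the cases
-/

set_option autoImplicit false

namespace AEY

open Finset Relation AE15 AED AEB AELT
open scoped Classical

section

variable {τ : Type*} {G : SimpleGraph τ} {E : τ → τ → Prop}

/-- the distances on a path going away from the root -/
theorem dist_path {r : τ} {p : ℕ → τ} {m : ℕ} (hp0 : p 0 = r)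
    (hp : ∀ i < m, G.Adj (p i) (p (i + 1)) ∧ G.dist r (p (i + 1)) = G.dist r (p i) + 1) :
    ∀ i ≤ m, G.dist r (p i) = i := by
  intro i
  induction i with
  | zero => intro _; rw [hp0, SimpleGraph.dist_self]
  | succ i ih =>
    intro hi
    rw [(hp i (by omega)).2, ih (by omega)]

/-- vertices on a run towards the root: the first one is behind every other one -/
theorem run_behind (hadj : ∀ a c, E a c → G.Adj a c) {r : τ} {q : ℕ → τ} {n : ℕ}
    (hq : ∀ i < n, E (q i) (q (i + 1)) ∧ G.dist r (q i) = G.dist r (q (i + 1)) + 1) :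
    ∀ s ≤ n, ReflTransGen (fun a c => G.Adj a c ∧ G.dist r c = G.dist r a + 1) (q s) (q 0) := by
  intro s
  induction s with
  | zero => intro _; exact ReflTransGen.refl
  | succ s ih =>
    intro hs
    obtain ⟨h1, h2⟩ := hq s (by omega)
    exact ReflTransGen.head ⟨(hadj _ _ h1).symm, h2⟩ (ih (by omega))

theorem mem_br_trans [Fintype τ] (hG : G.IsTree) {r w x y : τ} (h1 : x ∈ Br G r w)
    (h2 : ReflTransGen (fun a c => G.Adj a c ∧ G.dist r c = G.dist r a + 1) x y) : y ∈ Br G r w :=
  (AET.reach_iffP hG r w y).1 (((AET.reach_iffP hG r w x).2 h1).trans h2)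

/-- **the case of a small branch at the end of the main line** -/
theorem light_of_line [Fintype τ] (hG : G.IsTree) (hadj : ∀ a c, E a c → G.Adj a c) {l K K' K₁ : ℕ} (hKK : K' ≤ K) {r v : τ} {h : τ → τ}
    (hv : (Br G r v).ncard ≤ K₁)
    (hruns : ∀ q : ℕ → τ, (∀ i ≤ l, E (q i) (q (i + 1)) ∧ G.dist r (q i) = G.dist r (q (i + 1)) + 1) →
      q 0 ∈ Br G r v ∨ ∃ u w, E u w ∧ G.dist r w = G.dist r u + 1 ∧ w ≠ h u ∧
        K * (Ic E G r w).ncard ≤ (Br G r u).ncard ∧ q 0 ∈ Br G r w) :
    AET.LightRuns (l + K₁) K' E G r h := by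
  intro q hq
  have hdist : ∀ i ≤ l + K₁ + 1, G.dist r (q 0) = G.dist r (q i) + i := by
    intro i
    induction i with
    | zero => intro _; rfl
    | succ i ih =>
      intro hi
      rw [ih (by omega), (hq i (by omega)).2]
      omega
  have hex : ∃ s ≤ K₁, q s ∉ Br G r v := by
    by_contra hc
    push Not at hc
    have hinj : Set.InjOn q (Set.Iic K₁) := by
      intro i hi j hj hij
      rw [Set.mem_Iic] at hi hj
      have h1 := hdist i (by omega)
      have h2 := hdist j (by omega)
      rw [hij] at h1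
      omega
    have h1 : (q '' Set.Iic K₁).ncard = K₁ + 1 := by
      rw [Set.InjOn.ncard_image hinj, ← Finset.coe_Iic, Set.ncard_coe_finset, Nat.card_Iic]
    have h2 : (q '' Set.Iic K₁).ncard ≤ (Br G r v).ncard := by
      apply Set.ncard_le_ncard _ (Set.toFinite _)
      rintro x ⟨i, hi, rfl⟩
      exact hc i hi
    omega
  obtain ⟨s, hs, hsv⟩ := hex
  rcases hruns (fun i => q (s + i)) (fun i hi => by
      have := hq (s + i) (by omega)
      exact this) with h1 | ⟨u, w, h1, h2, h3, h4, h5⟩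
  · exact absurd (by simpa using h1) hsv
  · refine ⟨u, w, h1, h2, h3, le_trans (Nat.mul_le_mul_right _ hKK) h4, ?_⟩
    have h6 : q s ∈ Br G r w := by simpa using h5
    exact mem_br_trans hG h6 (run_behind (n := s) hadj (fun i hi => hq i (by omega)) s le_rfl)

end

/-- the theorem for one direction -/
def OneSt : Prop := ∀ Δ l K₁ : ℕ, ∃ K C : ℕ, ∀ k n : ℕ, k + C ≤ n → ∀ R : Fin n → Fin n → Prop,
    (∀ a, ¬ R a a) → (∀ a b, a ≠ b → R a b ∨ R b a) → (∀ a b, R a b → ¬ R b a) →
    ∀ E : Fin (k + 1) → Fin (k + 1) → Prop,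
      (∀ a b, E a b → ¬ E b a) →
      (SimpleGraph.fromRel E).IsTree →
      (∀ v, ((SimpleGraph.fromRel E).neighborSet v).ncard ≤ Δ) →
      ∀ (r : Fin (k + 1)) (h : Fin (k + 1) → Fin (k + 1)), AET.MainChild (SimpleGraph.fromRel E) r h →
      LineBal l K K₁ E (SimpleGraph.fromRel E) r h →
      ∃ f : Fin (k + 1) → Fin n, Function.Injective f ∧ ∀ a b, E a b → R (f a) (f b)

/-- the mirror image -/
theorem final_of_one (h : OneSt) : FinalSt := by
  intro Δ l K₁
  obtain ⟨K, C, hC⟩ := h Δ l K₁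
  refine ⟨K, C, fun k n hn R h1 h2 h3 E h4 h5 h6 r h hh h7 => ?_⟩
  rcases h7 with h7 | h7
  · exact hC k n hn R h1 h2 h3 E h4 h5 h6 r h hh h7
  · have he : SimpleGraph.fromRel (fun a b => E b a) = SimpleGraph.fromRel E := by
      ext a b
      rw [SimpleGraph.fromRel_adj, SimpleGraph.fromRel_adj, or_comm]
    obtain ⟨f, hf1, hf2⟩ := hC k n hn (fun a b => R b a) h1 (fun a b hab => (h2 a b hab).symm) (fun a b => h3 b a)
      (fun a b => E b a) (fun a b => h4 b a) (by rw [he]; exact h5) (by rw [he]; exact h6) r h (by rw [he]; exact hh)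
      (by rw [he]; exact h7)
    exact ⟨f, hf1, fun a b hab => hf2 b a hab⟩

theorem one_st : OneSt := by
  intro Δ l K₁
  obtain ⟨CB, hB⟩ := AEJ.balanced (fun b hb _ h1 h2 => AEJ.jump0 b hb h1 h2) Δ K₁
  obtain ⟨KF, CF, hF⟩ := AET.final_of_fol AET.main_fol Δ (l + K₁)
  have hK1 : (0 : ℝ) ≤ K₁ := Nat.cast_nonneg _
  obtain ⟨KX, CX, hX⟩ := main_fx (max Δ 1) l K₁ (le_max_right _ _) (θ := 1 / ((K₁ : ℝ) + 1)) (by positivity)
    (by rw [div_le_one (by positivity)]; linarith)
  refine ⟨max KF KX, CB + CF + CX + 1, fun k n hn R h1 h2 h3 E h4 h5 h6 r h hh h7 => ?_⟩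
  obtain ⟨p, t, m, htm, hp0, hp, hmain, hbal, hex, hruns⟩ := h7
  have hadj : ∀ a c, E a c → (SimpleGraph.fromRel E).Adj a c := by
    intro a c hac
    rw [SimpleGraph.fromRel_adj]
    exact ⟨fun he => by subst he; exact h4 _ _ hac hac, Or.inl hac⟩
  rcases hex with ht | hsm | ⟨he1, he2, he3⟩
  · -- the path is balanced from the root on
    subst ht
    refine hB k n (by omega) R h1 h2 h3 E h4 h5 h6 ⟨m, p, fun i => Br (SimpleGraph.fromRel E) r (p i),
      fun i hi => (hp i hi).1, ?_, ?_, ?_⟩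
    · intro i hi j hj hij
      have e1 := dist_path hp0 hp i hi
      have e2 := dist_path hp0 hp j hj
      rw [hij] at e1
      omega
    · intro i
      ext x
      simp only [Br, Set.mem_ofPred_eq, hp0]
      exact eq_comm
    · intro i hi hK
      obtain ⟨j, e1, e2, e3, e4⟩ := hbal i (Nat.zero_le _) hi hK
      exact ⟨j, e1, e2, e3, e4⟩
  · -- the branch at the end of the main line is small
    exact hF k n (by omega) R h1 h2 h3 E h4 h5 h6 ⟨r, h, hh, light_of_line h5 hadj (le_max_left KF KX) hsm hruns⟩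
  · -- the exit
    by_cases ht : t = 0
    · subst ht
      refine hB k n (by omega) R h1 h2 h3 E h4 h5 h6 ⟨m, p, fun i => Br (SimpleGraph.fromRel E) r (p i),
        fun i hi => (hp i hi).1, ?_, ?_, ?_⟩
      · intro i hi j hj hij
        have e1 := dist_path hp0 hp i hi
        have e2 := dist_path hp0 hp j hj
        rw [hij] at e1
        omega
      · intro i
        ext x
        simp only [Br, Set.mem_ofPred_eq, hp0]
        exact eq_comm
      · intro i hi hK
        obtain ⟨j, e1, e2, e3, e4⟩ := hbal i (Nat.zero_le _) hi hK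
        exact ⟨j, e1, e2, e3, e4⟩
    have h6' : ∀ v, {w | E v w ∨ E w v}.ncard ≤ max Δ 1 := by
      intro v
      refine le_trans (le_of_eq ?_) ((h6 v).trans (le_max_left _ _))
      congr 1
      ext w
      rw [SimpleGraph.mem_neighborSet, SimpleGraph.fromRel_adj]
      constructor
      · intro h
        refine ⟨?_, h⟩
        rintro rfl
        rcases h with h | h
        · exact h4 _ _ h h
        · exact h4 _ _ h h
      · intro h
        exact h.2
    obtain ⟨c, hc1, hc2, hc5⟩ := glueY (l := l) (K := KX) (K₁ := K₁) h4 h5 h6' r h hh (by omega) htm hp0 hp hmain hbal he1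
      (le_trans (Nat.mul_le_mul_right _ (le_max_right KF KX)) he2) he3 (fun q hq => by
        rcases hruns q hq with h8 | ⟨u, w, h8, h9, h10, h11, h12⟩
        · exact Or.inl h8
        · exact Or.inr ⟨u, w, h8, h9, h10, le_trans (Nat.mul_le_mul_right _ (le_max_right KF KX)) h11, h12⟩)
    obtain ⟨f, f1, -, -, f4⟩ := hc5 (hX (R := R) ⟨h1, h2, h3⟩ c hc2 univ (by
      rw [card_univ, Fintype.card_fin, hc1]
      omega))
    exact ⟨f, f1, f4⟩

/-- **the final statement** -/
theorem final_y : FinalSt := final_of_one one_st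

end AEY
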