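import Pool.Agent.AEY.CfgDY
import Pool.Agent.AET.CfgEL

/-!
# Main lines with an exit: the exact configurations in which the heavy path turns
-/

set_option autoImplicit false

namespace AEY

open Finset AE15 AED AEB AET
open scoped Classical

variable {V : Type*} {R : V → V → Prop}

theorem pe_exactY (hT : AE32.Tour R) {p : NP} {Q : Fd → Prop} {F D D' : Fd} (hQF : OutB Q F) (hblk : blk F ≤ p.a)
    (hFD : Turn F D ∨ ∃ c, F.hv = some (true, c) ∧ Turn c D ∧ OutB Q c ∧ blk c ≤ p.a) (hD : D.hv = some (true, D'))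
    (hQD : OutB Q D) (hblkD : blk D ≤ p.a) {x : V} {W w' : List V}
    (hW : W.Pairwise R) (hWl : W.length = 2 * p.a + 2) (hw' : w'.Pairwise R) (hw'l : p.a ≤ w'.length)
    (hw'x : ∀ z ∈ w', R z x) (hd : ∀ z ∈ W, z ∉ w') (hWx : (∀ z ∈ W, R x z) ∨ (∀ z ∈ W, R z x)) :
    ∃ (y₀ : V) (Z : Finset V) (L : List (V × Fd)) (D₁ : Fd), y₀ ∈ W ∧ (D₁ = D ∨ D₁ = D') ∧ y₀ ∉ Z ∧
      Z ⊆ insert x (W.toFinset ∪ w'.toFinset) ∧ x ∈ Z ∧ PE R F y₀ Z L ∧ (x, D₁) ∈ L ∧ ∀ q ∈ L, Q q.2 := by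
  obtain ⟨wa, wb, y₀, v₁, hla, hlb, hwa, hwb, hyv, hay, hav, hbv, hyb, hab', haW, hbW, hyW, hvW⟩ := tl_split_e hW hWl
  have hne : ∀ {u v : V}, R u v → u ≠ v := by
    rintro u v h rfl
    exact hT.irr u h
  have hxW : ∀ z ∈ W, z ≠ x := by
    intro z hz
    rcases hWx with h | h
    · exact (hne (h z hz)).symm
    · exact hne (h z hz)
  -- the turn in the block of `v`, with the list `w`
  have key : ∀ (E : Fd) (v : V) (w : List V), blk E ≤ p.a → OutB Q E → Turn E D → v ∈ W → w.length = p.a →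
      w.Pairwise R → (∀ z ∈ w, z ∈ W) → (∀ z ∈ w, R z v) → ∃ Z L D₁, (D₁ = D ∨ D₁ = D') ∧ PE R E v Z L ∧
        Z ⊆ insert x (w.toFinset ∪ w'.toFinset) ∧ x ∈ Z ∧ (x, D₁) ∈ L ∧ ∀ q ∈ L, Q q.2 := by
    intro E v w hblkE hQE hED hv hw1 hw2 hw3 hw4
    rcases hWx with h | h
    · obtain ⟨Z, L, h1, h2, h3, h4⟩ := pe_turn_x hT hED hQE v x w w' hw2 hw' hw4 (h v hv) (fun z hz => h z (hw3 z hz)) hw'x
        (fun z hz => hd z (hw3 z hz)) (by omega) (by omega)
      exact ⟨Z, L, D, Or.inl rfl, h1, h2, h3, h4⟩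
    · obtain ⟨Z, L, h1, h2, h3, h4⟩ := pe_turn_next hT hED hQE hQD hD v x w w' hw2 hw' hw4 (fun z hz => h z (hw3 z hz)) hw'x
        (fun z hz => hd z (hw3 z hz)) (by omega) (by omega)
      exact ⟨Z, L, D', Or.inr rfl, h1, h2, h3, h4⟩
  rcases hFD with h | ⟨c, h1, h2, hQc, hblkc⟩
  · obtain ⟨Z, L, D₁, h3, h4, h5, h6, h7, hq⟩ := key F y₀ wa hblk hQF h hyW hla hwa haW hay
    refine ⟨y₀, Z, L, D₁, hyW, h3, fun hy => ?_, h5.trans ?_, h6, h4, h7, hq⟩
    · have h8 := h5 hy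
      rw [mem_insert, mem_union, List.mem_toFinset, List.mem_toFinset] at h8
      rcases h8 with h8 | h8 | h8
      · exact hxW _ hyW h8
      · exact hne (hay _ h8) rfl
      · exact hd _ hyW h8
    · refine insert_subset_insert _ (union_subset_union ?_ (Subset.refl _))
      intro z hz
      rw [List.mem_toFinset] at hz ⊢
      exact haW z hz
  · obtain ⟨Z₁, L₁, D₁, h3, h4, h5, h6, h7, hq₁⟩ := key c v₁ wb hblkc hQc h2 hvW hlb hwb hbW hbv
    have hv₁ : v₁ ∉ Z₁ := by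
      intro hy
      have h8 := h5 hy
      rw [mem_insert, mem_union, List.mem_toFinset, List.mem_toFinset] at h8
      rcases h8 with h8 | h8 | h8
      · exact hxW _ hvW h8
      · exact hne (hbv _ h8) rfl
      · exact hd _ hvW h8
    have hy₁ : y₀ ∉ Z₁ := by
      intro hy
      have h8 := h5 hy
      rw [mem_insert, mem_union, List.mem_toFinset, List.mem_toFinset] at h8
      rcases h8 with h8 | h8 | h8
      · exact hxW _ hyW h8
      · exact hne (hyb _ h8) rfl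
      · exact hd _ hyW h8
    obtain ⟨Z, L, h8, h9, h10, h11, hq⟩ := pe_heavy hT hQF h1 y₀ v₁ wa hwa hay hyv h4 hq₁ hv₁ (fun z hz => ⟨hne (hav z hz), fun hy => by
      have h8 := h5 hy
      rw [mem_insert, mem_union, List.mem_toFinset, List.mem_toFinset] at h8
      rcases h8 with h8 | h8 | h8
      · exact hxW _ (haW z hz) h8
      · exact hne (hab' z hz z h8) rfl
      · exact hd _ (haW z hz) h8⟩) (by omega)
    refine ⟨y₀, Z, L, D₁, hyW, h3, fun hy => ?_, h9.trans ?_, h10 (mem_insert_of_mem h6), h8, h11 _ h7, hq⟩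
    · have h12 := h9 hy
      rw [mem_union, mem_insert, List.mem_toFinset] at h12
      rcases h12 with h12 | h12 | h12
      · exact hne (hay _ h12) rfl
      · exact hne hyv h12
      · exact hy₁ h12
    · intro z hz
      rw [mem_union, mem_insert, List.mem_toFinset] at hz
      rw [mem_insert, mem_union, List.mem_toFinset, List.mem_toFinset]
      rcases hz with h | h | h
      · exact Or.inr (Or.inl (haW z h))
      · exact Or.inr (Or.inl (h ▸ hvW))
      · have h12 := h5 h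
        rw [mem_insert, mem_union, List.mem_toFinset, List.mem_toFinset] at h12
        rcases h12 with h | h | h
        · exact Or.inl h
        · exact Or.inr (Or.inl (hbW z h))
        · exact Or.inr (Or.inr h)

/-- configurations S+, S- (the exact class is created at `x`) -/
theorem cfg_exactY (p : NP) (hp : p.OK) {γ₀ s : ℝ} (hγ : 0 < γ₀) (hs : 0 < s) :
    ∃ n₀ : ℕ, ∀ {V : Type} {R : V → V → Prop} {Gd : V → Prop} {X G : Finset V} {N : V → Prop}, n₀ ≤ X.card →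
      St R p Gd γ₀ s X G N → ∀ {Q : Fd → Prop} {F D D' : Fd}, OutB Q F → blk F ≤ p.a →
      (Turn F D ∨ ∃ c, F.hv = some (true, c) ∧ Turn c D ∧ OutB Q c ∧ blk c ≤ p.a) → D.hv = some (true, D') →
      OutB Q D → blk D ≤ p.a →
      ∃ y₀ x Z L D₁, (D₁ = D ∨ D₁ = D') ∧ HostQ Q R p Gd X N F y₀ x Z L D₁ ∧
        Cov R p (γ₀ / 16) X G (insert y₀ Z) x p.u0 := by
  obtain ⟨n₁, hn₁⟩ := cov_of p hp hγ
  obtain ⟨d, hdd⟩ : ∃ d : ℕ, d = 2 * p.c + 3 * p.a + 3 := ⟨_, rfl⟩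
  obtain ⟨n₂, hn₂⟩ := exists_nat_gt (((2 * p.c1 + 2 * p.cx + 1 : ℕ) : ℝ) / γ₀)
  obtain ⟨n₃, hn₃⟩ := exists_nat_gt (((2 * d * d + 1 + 2 * 2 ^ (2 * p.a + 2) : ℕ) : ℝ) / s)
  refine ⟨n₁ + n₂ + n₃, ?_⟩
  intro V R Gd X G N hn hSt Q F D D' hQF hblkF hFD hD hQD hblkD
  obtain ⟨hT, hG, hGd, hGc, hGo, hDd⟩ := hSt
  have hn0 : (0 : ℝ) ≤ X.card := by positivity
  have hX2 : ((2 * p.c1 + 2 * p.cx + 1 : ℕ) : ℝ) < γ₀ * X.card := by
    rw [div_lt_iff₀ hγ] at hn₂
    have h1 : (n₂ : ℝ) ≤ X.card := by exact_mod_cast (by omega : n₂ ≤ X.card)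
    have h2 : (n₂ : ℝ) * γ₀ ≤ X.card * γ₀ := mul_le_mul_of_nonneg_right h1 hγ.le
    linarith
  have hX3 : ((2 * d * d + 1 + 2 * 2 ^ (2 * p.a + 2) : ℕ) : ℝ) < s * X.card := by
    rw [div_lt_iff₀ hs] at hn₃
    have h1 : (n₃ : ℝ) ≤ X.card := by exact_mod_cast (by omega : n₃ ≤ X.card)
    have h2 : (n₃ : ℝ) * s ≤ X.card * s := mul_le_mul_of_nonneg_right h1 hs.le
    linarith
  have hne : ∀ {u v : V}, R u v → u ≠ v := by
    rintro u v h rfl
    exact hT.irr u h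
  -- the excluded set
  obtain ⟨Lam, hLam⟩ : ∃ Lam, Lam = X.filter (fun v => (nI R X v).card < p.c1) := ⟨_, rfl⟩
  obtain ⟨Low, hLow⟩ : ∃ Low, Low = G.filter (fun v => (nI R G v).card < p.cx) := ⟨_, rfl⟩
  have hLamc : Lam.card ≤ 2 * p.c1 := by rw [hLam]; exact card_lowin hT X p.c1
  have hLowc : Low.card ≤ 2 * p.cx := by rw [hLow]; exact card_lowin hT G p.cx
  obtain ⟨Z₀, hZ₀⟩ : ∃ Z₀, Z₀ = Lam ∪ Low := ⟨_, rfl⟩
  have hZ₀c : Z₀.card ≤ 2 * p.c1 + 2 * p.cx := by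
    rw [hZ₀]
    exact (card_union_le _ _).trans (by omega)
  have hGZ : (G \ Z₀).Nonempty := by
    rw [← card_pos]
    have h1 := le_card_sdiff Z₀ G
    have h2 : 2 * p.c1 + 2 * p.cx + 1 < G.card := by exact_mod_cast hX2.trans_le hGc
    omega
  obtain ⟨m, hm⟩ : ∃ m : ℕ, m = ⌊γ₀ / 16 * X.card⌋₊ := ⟨_, rfl⟩
  have hm1 : (m : ℝ) ≤ γ₀ / 16 * X.card := by rw [hm]; exact Nat.floor_le (by positivity)
  obtain ⟨x, hx⟩ := exists_x hT (m := m) hG (fun u hu huG => by rw [hm]; exact Nat.le_floor (hGo u hu huG)) hGZ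
  have hxG : x ∈ G := (mem_sdiff.1 hx.hx).1
  have hxZ : x ∉ Z₀ := (mem_sdiff.1 hx.hx).2
  have hxlow : p.cx ≤ (nI R G x).card := by
    by_contra h
    push Not at h
    exact hxZ (by rw [hZ₀, hLow]; exact mem_union_right _ (mem_filter.2 ⟨hxG, h⟩))
  obtain ⟨H, hHc, hHx, hH⟩ := harm hT hx d
  -- the lists
  obtain ⟨S, hS⟩ : ∃ S, S = (X.filter (fun v => Gd v ∧ N v)) \ insert x H := ⟨_, rfl⟩
  have hSc : 2 * 2 ^ (2 * p.a + 2) < S.card := by
    have h1 := le_card_sdiff (insert x H) (X.filter (fun v => Gd v ∧ N v))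
    rw [← hS] at h1
    have h2 := card_insert_le x H
    have h3 : 2 * d * d + 1 + 2 * 2 ^ (2 * p.a + 2) < (X.filter (fun v => Gd v ∧ N v)).card := by
      exact_mod_cast hX3.trans_le hDd
    omega
  have hSm : ∀ z ∈ S, z ∈ X ∧ Gd z ∧ N z ∧ z ≠ x ∧ z ∉ H := by
    intro z hz
    rw [hS, mem_sdiff, mem_filter, mem_insert, not_or] at hz
    exact ⟨hz.1.1, hz.1.2.1, hz.1.2.2, hz.2.1, hz.2.2⟩
  obtain ⟨W, hWl, hWS, hWp, hWx⟩ : ∃ W : List V, W.length = 2 * p.a + 2 ∧ (∀ z ∈ W, z ∈ S) ∧ W.Pairwise R ∧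
      ((∀ z ∈ W, R x z) ∨ (∀ z ∈ W, R z x)) := by
    have h1 : S ⊆ S.filter (fun z => R x z) ∪ S.filter (fun z => R z x) := by
      intro z hz
      rw [mem_union, mem_filter, mem_filter]
      rcases hT.tot x z (hSm z hz).2.2.2.1.symm with h | h
      · exact Or.inl ⟨hz, h⟩
      · exact Or.inr ⟨hz, h⟩
    have h2 := (card_le_card h1).trans (card_union_le _ _)
    rcases Nat.lt_or_ge (S.filter (fun z => R x z)).card (2 ^ (2 * p.a + 2)) with h3 | h3
    · obtain ⟨W, h4, h5, h6⟩ := exists_tl hT (2 * p.a + 2) (S.filter (fun z => R z x)) (by omega)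
      exact ⟨W, h4, fun z hz => (mem_filter.1 (h5 z hz)).1, h6, Or.inr (fun z hz => (mem_filter.1 (h5 z hz)).2)⟩
    · obtain ⟨W, h4, h5, h6⟩ := exists_tl hT (2 * p.a + 2) (S.filter (fun z => R x z)) h3
      exact ⟨W, h4, fun z hz => (mem_filter.1 (h5 z hz)).1, h6, Or.inl (fun z hz => (mem_filter.1 (h5 z hz)).2)⟩
  have hWc : W.toFinset.card ≤ 2 * p.a + 2 := by rw [← hWl]; exact List.toFinset_card_le W
  obtain ⟨w', hw'l, hw'm, hw'p⟩ := exists_tl hT p.a (nI R G x \ W.toFinset) (by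
    have h1 := le_card_sdiff W.toFinset (nI R G x)
    have h2 := hp.hcx
    omega)
  have hw'G : ∀ z ∈ w', z ∈ G ∧ R z x ∧ z ∉ W := by
    intro z hz
    have h1 := hw'm z hz
    rw [mem_sdiff, mem_nI, List.mem_toFinset] at h1
    exact ⟨h1.1.1, h1.1.2, h1.2⟩
  have hw'c : w'.toFinset.card ≤ p.a := by rw [← hw'l]; exact List.toFinset_card_le w'
  obtain ⟨y₀, Z, L, D₁, hyW, hD₁, hyZ, hZs, hxZ', hPE, hxL, hq⟩ := pe_exactY (Q := Q) hT hQF hblkF
    hFD hD hQD hblkD hWp hWl hw'p hw'l.ge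
    (fun z hz => (hw'G z hz).2.1) (fun z hz h => (hw'G z h).2.2 hz) hWx
  have hEs : insert y₀ Z ⊆ insert x (W.toFinset ∪ w'.toFinset) := by
    refine insert_subset ?_ hZs
    rw [mem_insert, mem_union, List.mem_toFinset]
    exact Or.inr (Or.inl hyW)
  have hEm : ∀ z ∈ insert y₀ Z, z ∈ X ∧ Gd z := by
    intro z hz
    have h1 := hEs hz
    rw [mem_insert, mem_union, List.mem_toFinset, List.mem_toFinset] at h1
    rcases h1 with h | h | h
    · rw [h]; exact ⟨hG hxG, hGd x hxG⟩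
    · exact ⟨(hSm z (hWS z h)).1, (hSm z (hWS z h)).2.1⟩
    · exact ⟨hG (hw'G z h).1, hGd z (hw'G z h).1⟩
  refine ⟨y₀, x, Z, L, D₁, hD₁, ?_, ?_⟩
  · refine ⟨⟨(hEm y₀ (mem_insert_self _ _)).1, (hSm y₀ (hWS y₀ hyW)).2.2.1, hyZ,
      fun z hz => (hEm z (mem_insert_of_mem hz)).1, hPE, ?_, Or.inr hxZ', hxL, ?_⟩, hq⟩
    · have h1 := card_le_card hEs
      rw [card_insert_of_notMem hyZ] at h1
      have h2 := card_insert_le x (W.toFinset ∪ w'.toFinset)
      have h3 := card_union_le W.toFinset w'.toFinset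
      have h4 := hp.he
      omega
    · intro i hi
      refine (hEm i.1 ?_).2
      rw [mem_insert]
      exact (PE.host hPE i hi).1
  · refine hn₁ hT (Z := Z₀) (m := m) (by omega) hG hx hGc hm1 ?_ ?_ (2 * p.a + 2) (2 * p.c + 2 * p.a + 2) p.u0 Low ?_ (by omega)
      (by omega) (Or.inr (by omega)) ?_ ?_ ?_
    · have h1 := hp.hg
      omega
    · intro u hu h
      rw [hZ₀, hLam]
      exact mem_union_left _ (mem_filter.2 ⟨hu, h⟩)
    · have h1 := hp.hM0
      have h2 := hp.hu0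
      generalize 2 ^ (p.A0 + p.a + 1) = t at h1
      omega
    · refine (card_le_card ?_).trans hWc
      intro z hz
      rw [mem_inter, mem_nO] at hz
      have h1 := hEs hz.1
      rw [mem_insert, mem_union, List.mem_toFinset, List.mem_toFinset] at h1
      rw [List.mem_toFinset]
      rcases h1 with h | h | h
      · exact absurd hz.2.2 (by rw [h]; exact hT.irr x)
      · exact h
      · exact absurd (hw'G z h).2.1 (hT.asym _ _ hz.2.2)
    · intro u hu huZ hux huc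
      rw [disjoint_left]
      intro z hz hzE
      have h0 := hH u hu huZ hux (huc.trans (by omega)) hz
      have h1 := hEs hzE
      rw [mem_insert, mem_union, List.mem_toFinset, List.mem_toFinset] at h1
      rcases h1 with h | h | h
      · exact hT.irr x (by have := (mem_nO.1 (hHx h0)).2; rwa [h] at this)
      · exact (hSm z (hWS z h)).2.2.2.2 h0
      · exact absurd (hw'G z h).2.1 (hT.asym _ _ (mem_nO.1 (hHx h0)).2)
    · intro u hu huX _ _ huc huU
      exfalso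
      rw [hZ₀, mem_union] at hu
      rcases hu with h | h
      · rw [hLam, mem_filter] at h
        omega
      · exact huU h

end AEY
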