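import Pool.Agent.AEY.CfgBY
import Pool.Agent.AEY.CfgEY
import Pool.Agent.AEY.CfgSY
import Pool.Agent.AET.CfgL

/-!
# Main lines with an exit: the configuration theorem
-/

set_option autoImplicit false

namespace AEY

open Finset AE15 AED AEB AET
open scoped Classical

/-- **configuration theorem** (interface for the core) -/
theorem cfgY (p : NP) (hp : p.OK) (hab : ab p.b p.l ≤ p.a) (hB2 : (2 * p.b) ^ p.A0 ≤ p.B) {γ₀ s : ℝ} (hγ : 0 < γ₀) (hs : 0 < s) :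
    ∃ n₀ : ℕ, ∀ {V : Type} {R : V → V → Prop} {Gd : V → Prop} {Y X G : Finset V} {N : V → Prop}, X ⊆ Y → n₀ ≤ X.card →
      St R p Gd γ₀ s X G N → ∀ {K M : ℕ}, K * p.a ≤ M → ∀ {Q : Fd → Prop} {F : Fd}, FX p.b p.l K Q 0 F →
      F.size + 1 ≤ M → p.A ≤ F.size → ClU R Gd s p F Y X N →
      ∃ y₀ x Z L D, HostUQ (Qi K p.b M) R p Gd Y X N F y₀ x Z L D ∧ D.size < F.size ∧ F.size + 1 ≤ p.A * (D.size + 1) ∧
        ((FX p.b p.l K Q 0 D ∧ ((¬ NN D ∧ γ₀ / 16 * X.card ≤ ((nO R G x).card : ℝ)) ∨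
          Cov R p (γ₀ / 16) X G (insert y₀ Z) x (p.ub D))) ∨ Exi p.b K M Q D) := by
  obtain ⟨n₁, hD⟩ := cfg_denseY p hp hγ hs
  obtain ⟨n₂, hE⟩ := cfg_exactY p hp hγ hs
  obtain ⟨n₃, hS⟩ := cfg_smallY p hp hγ hs
  obtain ⟨n₄, hB⟩ := cfg_bigY p hp hab hB2 hγ hs
  obtain ⟨n₅, h1st⟩ := cfg_first p hp (γ₀ := γ₀) hs
  have hb := hp.hb
  refine ⟨max n₅ (max (max n₁ n₂) (max n₃ n₄)), ?_⟩
  intro V R Gd Y X G N hXY hn' hSt K M hKa Q F hF hM hA hcl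
  have hn5 : n₅ ≤ X.card := (le_max_left _ _).trans hn'
  have hn : max (max n₁ n₂) (max n₃ n₄) ≤ X.card := (le_max_right _ _).trans hn'
  have hn1 : n₁ ≤ X.card := (le_max_left _ _).trans ((le_max_left _ _).trans hn)
  have hn2 : n₂ ≤ X.card := (le_max_right _ _).trans ((le_max_left _ _).trans hn)
  have hn3 : n₃ ≤ X.card := (le_max_left _ _).trans ((le_max_right _ _).trans hn)
  have hn4 : n₄ ≤ X.card := (le_max_right _ _).trans ((le_max_right _ _).trans hn)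
  have h2b : 1 ≤ 2 * p.b := by omega
  -- the facts on the trees of the class
  have hblk : ∀ {c : Fd}, FX p.b p.l K Q 0 c → blk c ≤ p.a := by
    intro c hc
    have h1 := hc.blk_lt_a (Nat.zero_le _) hab
    omega
  have hout : ∀ {c : Fd}, FX p.b p.l K Q 0 c → c.size ≤ F.size → OutB (Qi K p.b M) c := fun hc hcs =>
    hc.outB (Nat.zero_le _) hab hKa (by omega)
  -- the final item `D₁` is `D` or the heavy out-child of `D`
  have hsz : ∀ {D : Fd}, D.len ≤ p.b → F.size + 1 ≤ (2 * p.b) ^ (p.l + 2) * (D.size + 1) →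
      F.size + 1 ≤ p.A * (D.size + 1) ∧ ∀ D', D.hv = some (true, D') → F.size + 1 ≤ p.A * (D'.size + 1) := by
    intro D hDF h1
    refine ⟨h1.trans (Nat.mul_le_mul_right _ (Nat.pow_le_pow_right h2b (by omega))), fun D' hD' => ?_⟩
    have h2 := size_child hb hD' hDF
    calc F.size + 1 ≤ (2 * p.b) ^ (p.l + 2) * (2 * p.b * (D'.size + 1)) := h1.trans (Nat.mul_le_mul_left _ h2)
      _ = (2 * p.b) ^ (p.l + 3) * (D'.size + 1) := by ring
      _ ≤ p.A * (D'.size + 1) := Nat.mul_le_mul_right _ (Nat.pow_le_pow_right h2b (by omega))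
  have hturn : ∀ {D : Fd}, (Turn F D ∨ ∃ c, F.hv = some (true, c) ∧ Turn c D ∧ FX p.b p.l K Q 0 c) →
      FE p.b p.l K M Q D → D.size < F.size →
      F.size + 1 ≤ (2 * p.b) ^ (p.l + 2) * (D.size + 1) →
      ∃ y₀ x Z L D, HostUQ (Qi K p.b M) R p Gd Y X N F y₀ x Z L D ∧ D.size < F.size ∧ F.size + 1 ≤ p.A * (D.size + 1) ∧
        ((FX p.b p.l K Q 0 D ∧ ((¬ NN D ∧ γ₀ / 16 * X.card ≤ ((nO R G x).card : ℝ)) ∨
          Cov R p (γ₀ / 16) X G (insert y₀ Z) x (p.ub D))) ∨ Exi p.b K M Q D) := by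
    intro D hT hDF hDs hDsz
    have hT' : Turn F D ∨ ∃ c, F.hv = some (true, c) ∧ Turn c D ∧ OutB (Qi K p.b M) c ∧ blk c ≤ p.a := by
      rcases hT with h | ⟨c, h1, h2, h3⟩
      · exact Or.inl h
      · exact Or.inr ⟨c, h1, h2, hout h3 (size_lt_of_mem (hv_mem h1)).le, hblk h3⟩
    obtain ⟨s1, s2⟩ := hsz hDF.len hDsz
    rcases hDF with hDF | hDF
    · by_cases hD' : ∃ D', D.hv = some (true, D')
      · obtain ⟨D', hD'⟩ := hD'
        obtain ⟨y₀, x, Z, L, D₁, hD₁, hH, hC⟩ := hE hn2 hSt (hout hF le_rfl) (hblk hF) hT' hD' (hout hDF hDs.le) (hblk hDF)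
        have hCov := Or.inr (a := ¬ NN D₁ ∧ γ₀ / 16 * X.card ≤ ((nO R G x).card : ℝ)) (hC.mono' (p.u0_le_ub D₁))
        have hs' : D'.size < D.size := size_lt_of_mem (hv_mem hD')
        rcases hD₁ with rfl | rfl
        · exact ⟨y₀, x, Z, L, D₁, hH.u hXY, hDs, s1, Or.inl ⟨hDF, hCov⟩⟩
        · refine ⟨y₀, x, Z, L, D₁, hH.u hXY, hs'.trans hDs, s2 _ hD', ?_⟩
          rcases hDF.heavy hD' with h | h
          · exact Or.inl ⟨h, hCov⟩
          · exact Or.inr ⟨h.1, h.2.1, h.2.2.1, h.2.2.2.trans (by omega)⟩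
      · obtain ⟨y₀, x, Z, L, hH, hC⟩ := hD hn1 hSt (hout hF le_rfl) (hblk hF) hT'
        refine ⟨y₀, x, Z, L, D, hH.u hXY, hDs, s1, Or.inl ⟨hDF, Or.inl ⟨?_, hC⟩⟩⟩
        rintro ⟨c, c', h1, -⟩
        exact hD' ⟨c, h1⟩
    · obtain ⟨y₀, x, Z, L, hH, -⟩ := hD hn1 hSt (hout hF le_rfl) (hblk hF) hT'
      exact ⟨y₀, x, Z, L, D, hH.u hXY, hDs, s1, Or.inr hDF⟩
  have hpA : 2 * p.b ≤ p.A := by
    calc 2 * p.b = (2 * p.b) ^ 1 := (pow_one _).symm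
      _ ≤ p.A := Nat.pow_le_pow_right h2b (by omega)
  rcases routeX hb hF ((Nat.pow_le_pow_right h2b (by omega)).trans hA) with
    ⟨c, hc, hex⟩ | ⟨c, c', hc, hc', hcF, hc'F⟩ | ⟨D, h1, h2, h3, h4⟩ | ⟨c, D, h0, h1, hcF, h2, h3, h4⟩
  · -- the exit is the first arc of the main line
    obtain ⟨y₀, Z, L, hH⟩ := h1st hn5 hSt (hout hF le_rfl) (hblk hF) hc
    have g1 := size_child hb hc hF.1
    exact ⟨y₀, y₀, Z, L, c, hH.u hXY, size_lt_of_mem (hv_mem hc), g1.trans (Nat.mul_le_mul_right _ hpA),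
      Or.inr ⟨hex.1, hex.2.1, hex.2.2.1, hex.2.2.2.trans hM⟩⟩
  · have hNN : NN F := ⟨c, c', hc, hc'⟩
    have hcs : c.size < F.size := size_lt_of_mem (hv_mem hc)
    have hc's : c'.size < F.size := (size_lt_of_mem (hv_mem hc')).trans hcs
    have g1 := size_child hb hc hF.1
    have g2 := size_child hb hc' hcF.1
    have s1 : F.size + 1 ≤ p.A * (c.size + 1) := g1.trans (Nat.mul_le_mul_right _ hpA)
    have s2 : F.size + 1 ≤ p.A * (c'.size + 1) := by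
      calc F.size + 1 ≤ 2 * p.b * (2 * p.b * (c'.size + 1)) := g1.trans (Nat.mul_le_mul_left _ g2)
        _ = (2 * p.b) ^ 2 * (c'.size + 1) := by ring
        _ ≤ p.A * (c'.size + 1) := Nat.mul_le_mul_right _ (Nat.pow_le_pow_right h2b (by omega))
    have hc'M : FE p.b p.l K M Q c' := hc'F.mono hM
    have fin : ∀ {y₀ x Z L D₁}, (D₁ = c ∨ D₁ = c') → HostUQ (Qi K p.b M) R p Gd Y X N F y₀ x Z L D₁ →
        Cov R p (γ₀ / 16) X G (insert y₀ Z) x (p.ub D₁) →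
        ∃ y₀ x Z L D, HostUQ (Qi K p.b M) R p Gd Y X N F y₀ x Z L D ∧ D.size < F.size ∧
          F.size + 1 ≤ p.A * (D.size + 1) ∧
          ((FX p.b p.l K Q 0 D ∧ ((¬ NN D ∧ γ₀ / 16 * X.card ≤ ((nO R G x).card : ℝ)) ∨
            Cov R p (γ₀ / 16) X G (insert y₀ Z) x (p.ub D))) ∨ Exi p.b K M Q D) := by
      intro y₀ x Z L D₁ hD₁ hH hC
      rcases hD₁ with rfl | rfl
      · exact ⟨y₀, x, Z, L, D₁, hH, hcs, s1, Or.inl ⟨hcF, Or.inr hC⟩⟩
      · refine ⟨y₀, x, Z, L, D₁, hH, hc's, s2, ?_⟩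
        rcases hc'M with h | h
        · exact Or.inl ⟨h, Or.inr hC⟩
        · exact Or.inr h
    have hclB := hcl.2 hNN
    by_cases hBig : Big p.B F ∨ Big p.B c
    · obtain ⟨y₀, x, Z, L, D₁, hD₁, hH, hC⟩ := hB hn4 hXY hSt hKa hF hcF hM hc hc' hBig hclB
      exact fin hD₁ hH hC
    · rw [not_or] at hBig
      have hub : p.ub F = p.u0 := by
        unfold NP.ub
        rw [if_neg hBig.1]
      rw [hub] at hclB
      obtain ⟨y₀, x, Z, L, D₁, hD₁, hH, hC⟩ := hS hXY hn3 hSt (hout hF le_rfl) (hout hcF hcs.le) hF.1 hcF.1 hc hc'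
        hBig.1 hBig.2 hclB
      exact fin hD₁ hH (hC.mono' (p.u0_le_ub D₁))
  · exact hturn (Or.inl h1) (h2.mono hM) h3 h4
  · exact hturn (Or.inr ⟨c, h0, h1, hcF⟩) (h2.mono hM) h3 h4

end AEY
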